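import Mathlib

set_option autoImplicit false

open Set Function Cardinal

namespace Pool.Agent.MP_36bcbe_gt

theorem exists_list_sum {G : Type} [AddCommGroup G] (h2 : ∀ x : G, x + x = 0) (S : Set G) {x : G}
    (hx : x ∈ AddSubgroup.closure S) : ∃ l : List S, (l.map Subtype.val).sum = x := by
  have hneg : ∀ x : G, -x = x := fun x => neg_eq_of_add_eq_zero_left (h2 x)
  induction hx using AddSubgroup.closure_induction with
  | mem x hx => exact ⟨[⟨x, hx⟩], by simp⟩
  | zero => exact ⟨[], by simp⟩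
  | add x y _ _ hx hy =>
    obtain ⟨l, rfl⟩ := hx
    obtain ⟨m, rfl⟩ := hy
    exact ⟨l ++ m, by simp⟩
  | neg x _ hx => rw [hneg]; exact hx

theorem mk_closure_lt {G : Type} [AddCommGroup G] (h2 : ∀ x : G, x + x = 0) {μ : Cardinal}
    (hμ : ℵ₀ < μ) (S : Set G) (hS : #S < μ) : #(AddSubgroup.closure S) < μ := by
  have hsub : ((AddSubgroup.closure S : AddSubgroup G) : Set G) ⊆
      range (fun l : List S => (l.map Subtype.val).sum) := fun x hx => exists_list_sum h2 S hx
  calc #(AddSubgroup.closure S) ≤ #(range (fun l : List S => (l.map Subtype.val).sum)) :=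
        mk_le_mk_of_subset hsub
    _ ≤ #(List S) := mk_range_le
    _ ≤ max ℵ₀ #S := mk_list_le_max _
    _ < μ := max_lt hμ hS

theorem exists_rec_seq {ι V : Type} [LinearOrder ι] [WellFoundedLT ι]
    (Q : ι → Set V → V → Prop) (ok : Set V → Prop)
    (hok : ∀ (i : ι) (s : Iio i → V), ok (range s))
    (hQ : ∀ i W, ok W → ∃ v, Q i W v) :
    ∃ s : ι → V, ∀ i, Q i (s '' Iio i) (s i) := by
  classical
  let F : (i : ι) → ((j : ι) → j < i → V) → V := fun i r =>
    Classical.choose (hQ i (range (fun j : Iio i => r j.1 j.2)) (hok i _))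
  let s : ι → V := (wellFounded_lt (α := ι)).fix F
  refine ⟨s, fun i => ?_⟩
  have h1 : s i = F i (fun j _ => s j) := (wellFounded_lt (α := ι)).fix_eq F i
  have h2 : s '' Iio i = range (fun j : Iio i => s j.1) := image_eq_range _ _
  rw [h1, h2]
  exact Classical.choose_spec (hQ i (range (fun j : Iio i => s j.1)) (hok i _))

theorem closure_step {G ι : Type} [AddCommGroup G] [LinearOrder ι] (h2 : ∀ x : G, x + x = 0)
    (E : Set G) (t : ι → G) (b : ι) (z : G) (hz : z ∈ AddSubgroup.closure (E ∪ t '' Iic b)) :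
    z ∈ AddSubgroup.closure (E ∪ t '' Iio b) ∨ z + t b ∈ AddSubgroup.closure (E ∪ t '' Iio b) := by
  have hneg : ∀ x : G, -x = x := fun x => neg_eq_of_add_eq_zero_left (h2 x)
  induction hz using AddSubgroup.closure_induction with
  | mem x hx =>
    rcases hx with hx | ⟨j, hj, rfl⟩
    · exact Or.inl (AddSubgroup.subset_closure (Or.inl hx))
    · rcases lt_or_eq_of_le (mem_Iic.1 hj) with h | h
      · exact Or.inl (AddSubgroup.subset_closure (Or.inr ⟨j, h, rfl⟩))
      · right
        simp only [h, h2]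
        exact zero_mem _
  | zero => exact Or.inl (zero_mem _)
  | add x y _ _ hx hy =>
    rcases hx with hx | hx <;> rcases hy with hy | hy
    · exact Or.inl (add_mem hx hy)
    · right; rw [add_assoc]; exact add_mem hx hy
    · right; rw [add_right_comm]; exact add_mem hx hy
    · left
      have := add_mem hx hy
      rwa [add_add_add_comm, h2, add_zero] at this
  | neg x _ hx => rw [hneg]; exact hx

theorem closure_lim {G ι : Type} [AddCommGroup G] [LinearOrder ι] (h2 : ∀ x : G, x + x = 0)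
    (E : Set G) (t : ι → G) (I : Set ι) (z : G) (hz : z ∈ AddSubgroup.closure (E ∪ t '' I)) :
    z ∈ AddSubgroup.closure E ∨ ∃ b ∈ I, z ∈ AddSubgroup.closure (E ∪ t '' Iic b) := by
  have hneg : ∀ x : G, -x = x := fun x => neg_eq_of_add_eq_zero_left (h2 x)
  have hE : ∀ b : ι, AddSubgroup.closure E ≤ AddSubgroup.closure (E ∪ t '' Iic b) := fun b =>
    AddSubgroup.closure_mono subset_union_left
  have hm : ∀ b c : ι, b ≤ c → AddSubgroup.closure (E ∪ t '' Iic b) ≤
      AddSubgroup.closure (E ∪ t '' Iic c) := fun b c h =>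
    AddSubgroup.closure_mono (union_subset_union_right _ (image_mono (Iic_subset_Iic.2 h)))
  induction hz using AddSubgroup.closure_induction with
  | mem x hx =>
    rcases hx with hx | ⟨j, hj, rfl⟩
    · exact Or.inl (AddSubgroup.subset_closure hx)
    · exact Or.inr ⟨j, hj, AddSubgroup.subset_closure (Or.inr ⟨j, mem_Iic.2 le_rfl, rfl⟩)⟩
  | zero => exact Or.inl (zero_mem _)
  | add x y _ _ hx hy =>
    rcases hx with hx | ⟨b, hb, hx⟩ <;> rcases hy with hy | ⟨c, hc, hy⟩
    · exact Or.inl (add_mem hx hy)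
    · exact Or.inr ⟨c, hc, add_mem (hE c hx) hy⟩
    · exact Or.inr ⟨b, hb, add_mem hx (hE b hy)⟩
    · rcases le_total b c with h | h
      · exact Or.inr ⟨c, hc, add_mem (hm _ _ h hx) hy⟩
      · exact Or.inr ⟨b, hb, add_mem hx (hm _ _ h hy)⟩
  | neg x _ hx => rw [hneg]; exact hx

theorem exists_two_subgroups {K : Type} [AddCommGroup K] (h2 : ∀ x : K, x + x = 0)
    {μ : Cardinal} (hμ : ℵ₀ < μ) (κ : Type) [Nonempty κ] (hκ : #κ ≤ μ) (E : Set K) (hE : #E < μ)
    (R : κ → Set K) (hR : ∀ k, μ ≤ #(R k)) :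
    ∃ G H : AddSubgroup K, E ⊆ G ∧ E ⊆ H ∧ (∀ z, z ∈ G → z ∈ H → z ∈ AddSubgroup.closure E) ∧
      (∀ k, ∃ x ∈ R k, x ∈ G) ∧ (∀ k, ∃ y ∈ R k, y ∈ H) := by
  classical
  let ι : Type := μ.ord.ToType
  have hι : #ι = μ := mk_ord_toType _
  obtain ⟨e⟩ : Nonempty (κ ↪ ι) := by
    rw [← Cardinal.le_def, hι]; exact hκ
  let σ : ι → κ := Function.invFun e
  have hσ : Surjective σ := Function.invFun_surjective e.injective
  let W : Set (K × K) → AddSubgroup K := fun T =>
    AddSubgroup.closure (E ∪ (Prod.fst '' T ∪ Prod.snd '' T))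
  have hout : ∀ k, ∀ U : Set K, #U < μ → ∃ x ∈ R k, x ∉ U := by
    intro k U hU
    by_contra hcon
    push Not at hcon
    exact absurd (lt_of_le_of_lt ((hR k).trans (mk_le_mk_of_subset hcon)) hU) (lt_irrefl _)
  obtain ⟨s, hs⟩ := exists_rec_seq (ι := ι) (V := K × K)
    (fun i T v => v.1 ∈ R (σ i) ∧ v.2 ∈ R (σ i) ∧ v.1 ∉ W T ∧ v.2 ∉ W T ∧ v.1 + v.2 ∉ W T)
    (fun T => #T < μ)
    (fun i s => by
      refine lt_of_le_of_lt mk_range_le ?_
      have := mk_Iio_lt i (by simp [ι])
      rwa [hι] at this)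
    (fun i T hT => by
      have hW : #(W T) < μ := by
        apply mk_closure_lt h2 hμ
        refine lt_of_le_of_lt (mk_union_le _ _) (add_lt_of_lt hμ.le hE ?_)
        refine lt_of_le_of_lt (mk_union_le _ _) (add_lt_of_lt hμ.le ?_ ?_)
        · exact lt_of_le_of_lt mk_image_le hT
        · exact lt_of_le_of_lt mk_image_le hT
      obtain ⟨x, hx, hxW⟩ := hout (σ i) (W T) hW
      obtain ⟨y, hy, hyW⟩ := hout (σ i) ((W T : Set K) ∪ (fun w => x + w) '' (W T))
        (lt_of_le_of_lt (mk_union_le _ _) (add_lt_of_lt hμ.le hW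
          (lt_of_le_of_lt mk_image_le hW)))
      refine ⟨(x, y), hx, hy, hxW, fun h => hyW (Or.inl h), fun h => hyW (Or.inr ⟨x + y, h, ?_⟩)⟩
      simp only
      rw [← add_assoc, h2, zero_add])
  let t1 : ι → K := fun j => (s j).1
  let t2 : ι → K := fun j => (s j).2
  have hW1 : ∀ i, AddSubgroup.closure (E ∪ t1 '' Iio i) ≤ W (s '' Iio i) := by
    intro i
    apply AddSubgroup.closure_mono
    apply union_subset_union_right
    rintro _ ⟨j, hj, rfl⟩
    exact Or.inl ⟨s j, ⟨j, hj, rfl⟩, rfl⟩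
  have hW2 : ∀ i, AddSubgroup.closure (E ∪ t2 '' Iio i) ≤ W (s '' Iio i) := by
    intro i
    apply AddSubgroup.closure_mono
    apply union_subset_union_right
    rintro _ ⟨j, hj, rfl⟩
    exact Or.inr ⟨s j, ⟨j, hj, rfl⟩, rfl⟩
  have hm : ∀ (t : ι → K) (b c : ι), b ≤ c → AddSubgroup.closure (E ∪ t '' Iic b) ≤
      AddSubgroup.closure (E ∪ t '' Iic c) := fun t b c h =>
    AddSubgroup.closure_mono (union_subset_union_right _ (image_mono (Iic_subset_Iic.2 h)))
  have hred : ∀ (I : Set ι) (z : K), z ∈ AddSubgroup.closure (E ∪ t1 '' I) →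
      z ∈ AddSubgroup.closure (E ∪ t2 '' I) → z ∈ AddSubgroup.closure E ∨
        ∃ b ∈ I, z ∈ AddSubgroup.closure (E ∪ t1 '' Iic b) ∧
          z ∈ AddSubgroup.closure (E ∪ t2 '' Iic b) := by
    intro I z h1 h2'
    rcases closure_lim h2 E t1 I z h1 with h | ⟨b, hb, h3⟩
    · exact Or.inl h
    · rcases closure_lim h2 E t2 I z h2' with h | ⟨c, hc, h4⟩
      · exact Or.inl h
      · rcases le_total b c with h | h
        · exact Or.inr ⟨c, hc, hm t1 _ _ h h3, h4⟩
        · exact Or.inr ⟨b, hb, h3, hm t2 _ _ h h4⟩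
  have hmain : ∀ (b : ι) (z : K), z ∈ AddSubgroup.closure (E ∪ t1 '' Iic b) →
      z ∈ AddSubgroup.closure (E ∪ t2 '' Iic b) → z ∈ AddSubgroup.closure E := by
    intro b
    induction b using WellFoundedLT.induction with
    | ind b ih =>
      intro z h1 h3
      rcases closure_step h2 E t1 b z h1 with h4 | h4 <;>
        rcases closure_step h2 E t2 b z h3 with h5 | h5
      · rcases hred _ z h4 h5 with h | ⟨c, hc, h6, h7⟩
        · exact h
        · exact ih c hc z h6 h7
      · exfalso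
        apply (hs b).2.2.2.1
        have := add_mem (hW1 b h4) (hW2 b h5)
        rwa [← add_assoc, h2, zero_add] at this
      · exfalso
        apply (hs b).2.2.1
        have := add_mem (hW2 b h5) (hW1 b h4)
        rwa [← add_assoc, h2, zero_add] at this
      · exfalso
        apply (hs b).2.2.2.2
        have := add_mem (hW1 b h4) (hW2 b h5)
        rwa [add_add_add_comm, h2, zero_add] at this
  refine ⟨AddSubgroup.closure (E ∪ t1 '' Set.univ), AddSubgroup.closure (E ∪ t2 '' Set.univ),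
    fun x hx => AddSubgroup.subset_closure (Or.inl hx),
    fun x hx => AddSubgroup.subset_closure (Or.inl hx), ?_, fun k => ?_, fun k => ?_⟩
  · intro z h1 h3
    rcases hred _ z h1 h3 with h | ⟨c, -, h6, h7⟩
    · exact h
    · exact hmain c z h6 h7
  · obtain ⟨a, rfl⟩ := hσ k
    exact ⟨(s a).1, (hs a).1, AddSubgroup.subset_closure (Or.inr ⟨a, mem_univ _, rfl⟩)⟩
  · obtain ⟨a, rfl⟩ := hσ k
    exact ⟨(s a).2, (hs a).2.1, AddSubgroup.subset_closure (Or.inr ⟨a, mem_univ _, rfl⟩)⟩

end Pool.Agent.MP_36bcbe_gt
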