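import Mathlib
import Pool.Agent.MP_36bcbe_gt.Rec

set_option autoImplicit false

open Set Function Cardinal Filter Topology TopologicalSpace

namespace Pool.Agent.MP_36bcbe_gt

variable {I : Type}

theorem z2_cases (a : ZMod 2) : a = 0 ∨ a = 1 := by
  revert a; decide

theorem cube_add_self (x : I → ZMod 2) : x + x = 0 := by
  funext i
  exact CharTwo.add_self_eq_zero (x i)

theorem exists_finset_of_mem_nhds {z : I → ZMod 2} {t : Set (I → ZMod 2)} (ht : t ∈ 𝓝 z) :
    ∃ F : Finset I, ∀ x : I → ZMod 2, (∀ i ∈ F, x i = z i) → x ∈ t := by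
  rw [nhds_pi, Filter.mem_pi] at ht
  obtain ⟨J, hJ, u, hu, hsub⟩ := ht
  refine ⟨hJ.toFinset, fun x hx => hsub fun i hi => ?_⟩
  rw [hx i (hJ.mem_toFinset.2 hi)]
  exact mem_of_mem_nhds (hu i)

theorem agree_mem_nhds (z : I → ZMod 2) (F : Finset I) :
    {x : I → ZMod 2 | ∀ i ∈ F, x i = z i} ∈ 𝓝 z := by
  have : ∀ i : I, ∀ᶠ x in 𝓝 z, x i = z i := fun i => by
    have : Tendsto (fun x : I → ZMod 2 => x i) (𝓝 z) (𝓝 (z i)) := (continuous_apply i).tendsto z
    rwa [nhds_discrete (ZMod 2), tendsto_pure] at this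
  exact (eventually_all_finset F).2 fun i _ => this i

theorem exists_finset_of_mem_nhds_sub {G : AddSubgroup (I → ZMod 2)} {z : G} {t : Set G}
    (ht : t ∈ 𝓝 z) : ∃ F : Finset I, ∀ x : G, (∀ i ∈ F, x.1 i = z.1 i) → x ∈ t := by
  rw [nhds_subtype, mem_comap] at ht
  obtain ⟨u, hu, hsub⟩ := ht
  obtain ⟨F, hF⟩ := exists_finset_of_mem_nhds hu
  exact ⟨F, fun x hx => hsub (hF x.1 hx)⟩

/-- a dense sequence in the cube -/
theorem exists_dense_seq_cube (hI : #I ≤ 𝔠) :
    ∃ e : ℕ → I → ZMod 2, ∀ (F : Finset I) (y : I → ZMod 2), ∃ a, ∀ i ∈ F, e a i = y i := by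
  classical
  obtain ⟨φ⟩ : Nonempty (I ↪ (ℕ → Bool)) := by
    rw [← Cardinal.le_def]
    simpa using hI
  let D : Type := Σ m : ℕ, (Fin m → Bool) → ZMod 2
  have : Nonempty D := ⟨⟨0, fun _ => 0⟩⟩
  obtain ⟨s, hs⟩ := exists_surjective_nat D
  refine ⟨fun a i => (s a).2 fun k => φ i k, fun F y => ?_⟩
  have hsep : ∀ p : I × I, ∃ n : ℕ, p.1 ≠ p.2 → φ p.1 n ≠ φ p.2 n := by
    intro p
    by_cases h : p.1 = p.2
    · exact ⟨0, fun h' => absurd h h'⟩
    · obtain ⟨n, hn⟩ := Function.ne_iff.1 (φ.injective.ne h)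
      exact ⟨n, fun _ => hn⟩
  choose n hn using hsep
  let m : ℕ := (F ×ˢ F).sup n + 1
  have hinj : ∀ i ∈ F, ∀ j ∈ F, (fun k : Fin m => φ i k) = (fun k : Fin m => φ j k) → i = j := by
    intro i hi j hj h
    by_contra hne
    have h1 : n (i, j) < m :=
      Nat.lt_succ_of_le (Finset.le_sup (f := n) (Finset.mem_product.2 ⟨hi, hj⟩))
    exact hn (i, j) hne (congrFun h ⟨n (i, j), h1⟩)
  let g : (Fin m → Bool) → ZMod 2 := fun w =>
    if h : ∃ i ∈ F, (fun k : Fin m => φ i k) = w then y h.choose else 0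
  obtain ⟨a, ha⟩ := hs ⟨m, g⟩
  refine ⟨a, fun i hi => ?_⟩
  have h1 : ∃ j ∈ F, (fun k : Fin m => φ j k) = (fun k : Fin m => φ i k) := ⟨i, hi, rfl⟩
  have h2 : h1.choose = i := hinj _ h1.choose_spec.1 _ hi h1.choose_spec.2
  change (s a).2 (fun k => φ i k) = y i
  rw [ha]
  change g (fun k : Fin m => φ i k) = y i
  simp only [g, dif_pos h1, h2]

/-- the linear retraction coded by `r` -/
def ret (r : I → Finset I) (y : I → ZMod 2) : I → ZMod 2 := fun i => ∑ j ∈ r i, y j

/-- the free coordinates of `r` -/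
def free (r : I → Finset I) : Set I := {j | r j = {j}}

theorem ret_free {r : I → Finset I} (y : I → ZMod 2) {j : I} (hj : j ∈ free r) :
    ret r y j = y j := by
  unfold ret
  rw [show r j = {j} from hj, Finset.sum_singleton]

theorem continuous_ret (r : I → Finset I) : Continuous (ret r) :=
  continuous_pi fun _ => continuous_finsetSum _ fun j _ => continuous_apply j

theorem structure_thm (S : Set (I → ZMod 2)) (h0 : 0 ∈ S) (hadd : ∀ x ∈ S, ∀ y ∈ S, x + y ∈ S) :
    ∃ r : I → Finset I, (∀ i, ∀ j ∈ r i, j ∈ free r) ∧ (∀ x ∈ S, ret r x = x) ∧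
      ∀ (F : Finset I) (y : I → ZMod 2), (∀ j ∈ F, j ∈ free r) → ∃ x ∈ S, ∀ j ∈ F, x j = y j := by
  classical
  let f : I → S → ZMod 2 := fun i x => x.1 i
  obtain ⟨J, -, -, hspan, hind⟩ := exists_linearIndepOn_extension (K := ZMod 2) (v := f)
    (s := ∅) (t := Set.univ) (linearIndepOn_empty _ _) (empty_subset _)
  have hrep : ∀ i, ∃ t : Finset I, (∀ j ∈ t, j ∈ J) ∧ ∀ x : S, x.1 i = ∑ j ∈ t, x.1 j := by
    intro i
    obtain ⟨l, hl, hli⟩ := (Finsupp.mem_span_image_iff_linearCombination _).1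
      (hspan ⟨i, mem_univ _, rfl⟩)
    refine ⟨l.support, fun j hj => (Finsupp.mem_supported _ _).1 hl hj, fun x => ?_⟩
    have := congrFun hli x
    rw [Finsupp.linearCombination_apply, Finsupp.sum, Finset.sum_apply] at this
    change _ = x.1 i at this
    rw [← this]
    refine Finset.sum_congr rfl fun j hj => ?_
    have h1 : l j = 1 := (z2_cases (l j)).resolve_left (Finsupp.mem_support_iff.1 hj)
    simp [h1, f]
  choose t htJ ht using hrep
  let r : I → Finset I := fun i => if i ∈ J then {i} else t i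
  have hJfree : ∀ j ∈ J, j ∈ free r := fun j hj => by simp [free, r, hj]
  have hfreeJ : ∀ j ∈ free r, j ∈ J := fun j hj => by
    by_contra h
    have h1 : t j = {j} := by simpa [free, r, h] using hj
    exact h (htJ j j (by simp [h1]))
  refine ⟨r, fun i j hj => ?_, fun x hx => ?_, fun F y hF => ?_⟩
  · by_cases hi : i ∈ J
    · simp only [r, if_pos hi, Finset.mem_singleton] at hj
      exact hj ▸ hJfree i hi
    · simp only [r, if_neg hi] at hj
      exact hJfree j (htJ i j hj)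
  · funext i
    by_cases hi : i ∈ J
    · exact ret_free x (hJfree i hi)
    · simp only [ret, r, if_neg hi]
      exact (ht i ⟨x, hx⟩).symm
  · have h1 : LinearIndependent (ZMod 2) (fun j : F => f j) :=
      (hind.mono (t := (F : Set I)) fun j hj => hfreeJ j (hF j hj))
    have h2 := span_flip_eq_top_iff_linearIndependent.2 h1
    have h3 : ∀ w ∈ Submodule.span (ZMod 2) (range (flip fun j : F => f j)),
        ∃ x ∈ S, ∀ j : F, x j = w j := by
      intro w hw
      induction hw using Submodule.span_induction with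
      | mem w hw =>
        obtain ⟨x, rfl⟩ := hw
        exact ⟨x.1, x.2, fun _ => rfl⟩
      | zero => exact ⟨0, h0, fun _ => rfl⟩
      | add a b _ _ ha hb =>
        obtain ⟨x, hx, hxa⟩ := ha
        obtain ⟨x', hx', hxb⟩ := hb
        exact ⟨x + x', hadd x hx x' hx', fun j => by simp [hxa j, hxb j]⟩
      | smul c a _ ha =>
        rcases z2_cases c with h | h
        · exact ⟨0, h0, fun j => by simp [h]⟩
        · simpa [h] using ha
    obtain ⟨x, hx, hxy⟩ := h3 (fun j : F => y j) (h2 ▸ Submodule.mem_top)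
    exact ⟨x, hx, fun j hj => hxy ⟨j, hj⟩⟩

theorem agree_of_free {r : I → Finset I} {x z : I → ZMod 2} (hx : ret r x = x) (hz : ret r z = z)
    [DecidableEq I] {F : Finset I} (h : ∀ j ∈ F.biUnion r, x j = z j) : ∀ i ∈ F, x i = z i := by
  intro i hi
  rw [← hx, ← hz]
  exact Finset.sum_congr rfl fun j hj => h j (Finset.mem_biUnion.2 ⟨i, hi, hj⟩)

theorem mk_perturb (Φ : (I → ZMod 2) → (I → ZMod 2)) (ψ : I → I) (hψ : Injective ψ)
    (hΦ : ∀ x i, Φ x (ψ i) = x (ψ i)) (a : I → ZMod 2) :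
    #(I → ZMod 2) ≤ #(range fun β : I → ZMod 2 => Φ (a + Function.extend ψ β 0)) := by
  rw [mk_range_eq]
  intro β β' h
  funext i
  have := congrFun h (ψ i)
  simp only [hΦ, Pi.add_apply, hψ.extend_apply] at this
  exact add_left_cancel this

theorem bounded_of_fill {G : AddSubgroup (I → ZMod 2)}
    (hfill : ∀ B : Set I, B.Countable → ∀ a : I → ZMod 2, ∃ g : G, ∀ i ∈ B, g.1 i = a i)
    (f : G → ℝ) (hf : Continuous f) : ∃ C : ℝ, ∀ x, |f x| ≤ C := by
  classical
  by_contra hcon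
  push Not at hcon
  choose g hg using fun n : ℕ => hcon n
  have h1 : ∀ n : ℕ, ∃ F : Finset I, ∀ x : G, (∀ i ∈ F, x.1 i = (g n).1 i) → (n : ℝ) < |f x| :=
    fun n => exists_finset_of_mem_nhds_sub
      ((isOpen_lt continuous_const hf.abs).mem_nhds (hg n))
  choose F hF using h1
  obtain ⟨x, hx⟩ := exists_clusterPt_of_compactSpace (map (fun n => (g n).1) atTop)
  obtain ⟨p, hp⟩ := hfill (⋃ n, (F n : Set I)) (countable_iUnion fun n => (F n).countable_toSet) x
  obtain ⟨F', hF'⟩ : ∃ F' : Finset I, ∀ y : G, (∀ i ∈ F', y.1 i = p.1 i) → |f y| < |f p| + 1 :=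
    exists_finset_of_mem_nhds_sub ((isOpen_lt hf.abs continuous_const).mem_nhds (by simp))
  have h2 : ∃ᶠ n in atTop, ∀ i ∈ F', (g n).1 i = x i :=
    (mapClusterPt_iff_frequently.1 hx) _ (agree_mem_nhds x F')
  obtain ⟨N, hN⟩ := exists_nat_ge (|f p| + 1)
  obtain ⟨n, hn, hnN⟩ := (h2.and_eventually (eventually_ge_atTop N)).exists
  obtain ⟨h, hh⟩ := hfill ((F n : Set I) ∪ F') ((F n).countable_toSet.union F'.countable_toSet)
    (fun i => if i ∈ F n then (g n).1 i else p.1 i)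
  have h3 := hF n h fun i hi => by rw [hh i (Or.inl hi), if_pos hi]
  have h4 := hF' h fun i hi => by
    rw [hh i (Or.inr hi)]
    by_cases hi' : i ∈ F n
    · rw [if_pos hi', hn i hi, hp i (mem_iUnion.2 ⟨n, hi'⟩)]
    · rw [if_neg hi']
  have h5 : (N : ℝ) ≤ n := Nat.cast_le.2 hnN
  linarith

theorem separable_of_req {G : AddSubgroup (I → ZMod 2)}
    (hreq : ∀ r : I → Finset I, ¬ (free r).Countable → ∃ d : ℕ × ℕ → G,
      (∀ n, ∃ y, (d n).1 = ret r y) ∧ ∀ (F : Finset I) (y : I → ZMod 2), (∀ j ∈ F, j ∈ free r) →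
        ∃ n, ∀ j ∈ F, (d n).1 j = y j)
    (S : Set G) (h0 : 0 ∈ S) (hadd : ∀ x ∈ S, ∀ y ∈ S, x + y ∈ S) (hS : IsClosed S) :
    SeparableSpace S := by
  classical
  obtain ⟨r, hr, hfix, hsurj⟩ := structure_thm (Subtype.val '' S) ⟨0, h0, rfl⟩ (by
    rintro _ ⟨x, hx, rfl⟩ _ ⟨y, hy, rfl⟩
    exact ⟨x + y, hadd x hx y hy, rfl⟩)
  have hidem : ∀ y, ret r (ret r y) = ret r y := fun y =>
    funext fun i => Finset.sum_congr rfl fun j hj => ret_free y (hr i j hj)
  have hbi : ∀ F : Finset I, ∀ j ∈ F.biUnion r, j ∈ free r := fun F j hj => by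
    obtain ⟨i, -, hi⟩ := Finset.mem_biUnion.1 hj
    exact hr i j hi
  by_cases hc : (free r).Countable
  · have : Countable (free r) := hc.to_subtype
    let p : S → (free r → ZMod 2) := fun x j => x.1.1 j
    have hp : IsInducing p := by
      refine isInducing_iff_nhds.2 fun x => le_antisymm ?_ ?_
      · refine (Continuous.tendsto ?_ x).le_comap
        exact continuous_pi fun j => (continuous_apply j.1).comp
          (continuous_subtype_val.comp continuous_subtype_val)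
      · intro t ht
        rw [nhds_subtype, mem_comap] at ht
        obtain ⟨u, hu, hsub⟩ := ht
        obtain ⟨F, hF⟩ := exists_finset_of_mem_nhds_sub hu
        refine mem_comap.2 ⟨_, agree_mem_nhds (p x) ((F.biUnion r).subtype (· ∈ free r)),
          fun y hy => hsub (hF y.1 ?_)⟩
        refine agree_of_free (hfix _ ⟨y.1, y.2, rfl⟩) (hfix _ ⟨x.1, x.2, rfl⟩) fun j hj => ?_
        exact hy ⟨j, hbi F j hj⟩ (Finset.mem_subtype.2 hj)
    have := hp.secondCountableTopology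
    infer_instance
  · obtain ⟨d, hd1, hd2⟩ := hreq r hc
    have hdfix : ∀ n, ret r (d n).1 = (d n).1 := fun n => by
      obtain ⟨y, hy⟩ := hd1 n
      rw [hy, hidem]
    have hdS : ∀ n, d n ∈ S := fun n => by
      rw [← hS.closure_eq, mem_closure_iff_nhds]
      intro t ht
      obtain ⟨F, hF⟩ := exists_finset_of_mem_nhds_sub ht
      obtain ⟨_, ⟨x, hx, rfl⟩, hxd⟩ := hsurj (F.biUnion r) (d n).1 (hbi F)
      exact ⟨x, hF x (agree_of_free (hfix _ ⟨x, hx, rfl⟩) (hdfix n) hxd), hx⟩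
    refine ⟨⟨range fun n => (⟨d n, hdS n⟩ : S), countable_range _, fun x => ?_⟩⟩
    rw [mem_closure_iff_nhds]
    intro t ht
    rw [nhds_subtype, mem_comap] at ht
    obtain ⟨u, hu, hsub⟩ := ht
    obtain ⟨F, hF⟩ := exists_finset_of_mem_nhds_sub hu
    obtain ⟨n, hn⟩ := hd2 (F.biUnion r) x.1.1 (hbi F)
    exact ⟨⟨d n, hdS n⟩, hsub (hF _ (agree_of_free (hdfix n) (hfix _ ⟨x.1, x.2, rfl⟩) hn)), n, rfl⟩

end Pool.Agent.MP_36bcbe_gt
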