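import Mathlib

set_option autoImplicit false

namespace Pool.Agent.MP_36bcbe_gt

/-- A family of non-empty open sets such that every non-empty open set contains a member. -/
def IsPiBase {X : Type} [TopologicalSpace X] (B : Set (Set X)) : Prop :=
  (∀ U ∈ B, IsOpen U ∧ U.Nonempty) ∧ ∀ V : Set X, IsOpen V → V.Nonempty → ∃ U ∈ B, U ⊆ V

/-- Every non-empty open set contains the closure of a non-empty open set. -/
def QuasiRegular (X : Type) [TopologicalSpace X] : Prop :=
  ∀ V : Set X, IsOpen V → V.Nonempty → ∃ U : Set X, IsOpen U ∧ U.Nonempty ∧ closure U ⊆ V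

/-- Pseudocompleteness in the sense of Oxtoby. -/
def Pseudocomplete (X : Type) [TopologicalSpace X] : Prop :=
  QuasiRegular X ∧ ∃ B : ℕ → Set (Set X), (∀ n, IsPiBase (B n)) ∧
    ∀ U : ℕ → Set X, (∀ n, U n ∈ B n) → (∀ n, closure (U (n + 1)) ⊆ U n) → (⋂ n, U n).Nonempty

end Pool.Agent.MP_36bcbe_gt
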