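import Mathlib
import Pool.Agent.MP_36bcbe_gt.Cube

set_option autoImplicit false

open Set Function Cardinal Filter Topology TopologicalSpace

namespace Pool.Agent.MP_36bcbe_gt

variable {I : Type}

theorem countable_iff_lt (s : Set I) : s.Countable ↔ #s < ℵ₁ := by
  rw [lt_aleph_one_iff, le_aleph0_iff_set_countable]

theorem exists_inj_into (hI : #I = ℵ₁) {J : Set I} (hJ : ¬ J.Countable) :
    ∃ ψ : (ℕ × ℕ) × I → I, Injective ψ ∧ ∀ p, ψ p ∈ J := by
  have h1 : #((ℕ × ℕ) × I) ≤ #J := by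
    have h2 : ℵ₁ ≤ #J := not_lt.1 fun h => hJ ((countable_iff_lt J).2 h)
    refine le_trans (le_of_eq ?_) h2
    simp [hI, mul_eq_right aleph0_lt_aleph_one.le aleph0_lt_aleph_one.le aleph0_ne_zero]
  obtain ⟨e⟩ := (Cardinal.le_def _ _).1 h1
  exact ⟨fun p => (e p).1, fun p q h => e.injective (Subtype.ext h), fun p => (e p).2⟩

/-- the basic compact set -/
noncomputable def base (I : Type) [DecidableEq I] : Set (I → ZMod 2) :=
  insert 0 (range fun i : I => Pi.single i 1)

theorem isCompact_base [DecidableEq I] : IsCompact (base I) := by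
  apply Tendsto.isCompact_insert_range_of_cofinite
  rw [tendsto_pi_nhds]
  intro j
  rw [nhds_discrete, tendsto_pure]
  filter_upwards [eventually_cofinite_ne j] with i hi
  exact Pi.single_eq_of_ne hi.symm _

theorem finite_supp [DecidableEq I] {x : I → ZMod 2} (hx : x ∈ AddSubgroup.closure (base I)) :
    {i | x i ≠ 0}.Finite := by
  induction hx using AddSubgroup.closure_induction with
  | mem x hx =>
    rcases hx with rfl | ⟨j, rfl⟩
    · simp
    · refine (finite_singleton j).subset fun i hi => ?_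
      by_contra h
      exact hi (Pi.single_eq_of_ne h _)
  | zero => simp
  | add x y _ _ hx hy =>
    refine (hx.union hy).subset fun i hi => ?_
    by_contra h
    simp only [mem_union, mem_ofPred_eq, not_or, not_not] at h
    exact hi (by simp [h.1, h.2])
  | neg x _ hx => simpa using hx

theorem exists_groups [DecidableEq I] (hI : #I = ℵ₁) :
    ∃ G H : AddSubgroup (I → ZMod 2), base I ⊆ G ∧ base I ⊆ H ∧
      (∀ z, z ∈ G → z ∈ H → z ∈ AddSubgroup.closure (base I)) ∧
      ∀ L : AddSubgroup (I → ZMod 2), L = G ∨ L = H →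
        (∀ f : L → ℝ, Continuous f → ∃ C : ℝ, ∀ x, |f x| ≤ C) ∧
        ∀ S : Set L, 0 ∈ S → (∀ x ∈ S, ∀ y ∈ S, x + y ∈ S) → IsClosed S → SeparableSpace S := by
  classical
  have hunc : ¬ (Set.univ : Set I).Countable := by
    rw [countable_iff_lt, mk_univ, hI]; exact lt_irrefl _
  have hinf : Infinite I := by
    rw [infinite_iff, hI]; exact aleph0_lt_aleph_one.le
  have hμ : #(I → ZMod 2) = 2 ^ ℵ₁ := by simp [hI]
  have hlt : ℵ₁ < #(I → ZMod 2) := by rw [hμ]; exact cantor _
  have hω : ℵ₀ < #(I → ZMod 2) := aleph0_lt_aleph_one.trans hlt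
  obtain ⟨e, he⟩ := exists_dense_seq_cube (I := I) (hI ▸ aleph_one_le_continuum)
  have hcompl : ∀ B : ℕ → I, ¬ ((range B)ᶜ).Countable := fun B h =>
    hunc (by rw [← union_compl_self (range B)]; exact (countable_range B).union h)
  have hψ1 : ∀ r : I → Finset I, ∃ ψ : (ℕ × ℕ) × I → I, Injective ψ ∧
      (¬ (free r).Countable → ∀ p, ψ p ∈ free r) := fun r => by
    by_cases h : (free r).Countable
    · obtain ⟨ψ, h1, -⟩ := exists_inj_into hI hunc
      exact ⟨ψ, h1, fun h' => absurd h h'⟩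
    · obtain ⟨ψ, h1, h2⟩ := exists_inj_into hI h
      exact ⟨ψ, h1, fun _ => h2⟩
  choose ψ hψ hψJ using hψ1
  choose χ hχ hχB using fun B : ℕ → I => exists_inj_into hI (hcompl B)
  let κ : Type := ((I → Finset I) × (ℕ × ℕ)) ⊕ ((ℕ → I) × (I → ZMod 2))
  let R : κ → Set (I → ZMod 2) := fun k => match k with
    | Sum.inl (r, n) => if (free r).Countable then Set.univ else
        range fun β : I → ZMod 2 => ret r (e n.1 + Function.extend (fun i => ψ r (n, i)) β 0)
    | Sum.inr (B, a) =>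
        range fun β : I → ZMod 2 => id (a + Function.extend (fun i => χ B ((0, 0), i)) β 0)
  have hκ : #κ ≤ #(I → ZMod 2) := by
    have h1 : #(I → Finset I) = #(I → ZMod 2) := by
      rw [hμ, ← power_self_eq aleph0_lt_aleph_one.le]
      simp [hI]
    have h2 : #(ℕ → I) ≤ #(I → ZMod 2) := by
      rw [hμ, ← power_self_eq aleph0_lt_aleph_one.le]
      simp only [mk_pi, prod_const, lift_id, mk_nat, hI]
      exact power_le_power_left (aleph_pos 1).ne' aleph0_lt_aleph_one.le
    have h3 : #(ℕ × ℕ) ≤ #(I → ZMod 2) := mk_le_aleph0.trans hω.le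
    simp only [κ, mk_sum, lift_id]
    refine add_le_of_le hω.le ?_ ?_
    · rw [mk_prod, lift_id, lift_id]
      exact mul_le_of_le hω.le h1.le h3
    · rw [mk_prod, lift_id, lift_id]
      exact mul_le_of_le hω.le h2 le_rfl
  have hE : #(base I) < #(I → ZMod 2) := by
    refine lt_of_le_of_lt mk_insert_le (add_lt_of_lt hω.le ?_ (one_lt_aleph0.trans hω))
    exact lt_of_le_of_lt mk_range_le (hI ▸ hlt)
  have hR : ∀ k, #(I → ZMod 2) ≤ #(R k) := by
    rintro (⟨r, n⟩ | ⟨B, a⟩)
    · by_cases h : (free r).Countable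
      · simp only [R, if_pos h, mk_univ, le_refl]
      · simp only [R, if_neg h]
        exact mk_perturb (ret r) _ (fun i j hij => (Prod.ext_iff.1 (hψ r hij)).2)
          (fun x i => ret_free x (hψJ r h _)) _
    · exact mk_perturb id _ (fun i j hij => (Prod.ext_iff.1 (hχ B hij)).2) (fun _ _ => rfl) _
  have : Nonempty κ := ⟨Sum.inl (fun _ => ∅, 0, 0)⟩
  obtain ⟨G, H, hG, hH, hGH, hRG, hRH⟩ := exists_two_subgroups cube_add_self hω κ hκ _ hE R hR
  refine ⟨G, H, hG, hH, hGH, fun L hL => ?_⟩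
  have hRL : ∀ k, ∃ x ∈ R k, x ∈ L := by
    rcases hL with rfl | rfl
    · exact hRG
    · exact hRH
  refine ⟨bounded_of_fill fun B hB a => ?_, separable_of_req fun r hr => ?_⟩
  · obtain ⟨i₀⟩ : Nonempty I := inferInstance
    obtain ⟨b, hb⟩ := (hB.insert i₀).exists_eq_range (insert_nonempty _ _)
    obtain ⟨_, ⟨β, rfl⟩, hx⟩ := hRL (Sum.inr (b, a))
    refine ⟨⟨_, hx⟩, fun i hi => ?_⟩
    have h1 : ¬ ∃ j, χ b ((0, 0), j) = i := by
      rintro ⟨j, rfl⟩
      refine hχB b ((0, 0), j) ?_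
      rw [← hb]
      exact Or.inr hi
    simp only [id, Pi.add_apply]
    rw [Function.extend_apply' _ _ _ h1]
    simp
  · have h1 : ∀ n : ℕ × ℕ, ∃ β : I → ZMod 2,
        ret r (e n.1 + Function.extend (fun i => ψ r (n, i)) β 0) ∈ L := fun n => by
      obtain ⟨x, hx, hxL⟩ := hRL (Sum.inl (r, n))
      simp only [R, if_neg hr] at hx
      obtain ⟨β, rfl⟩ := hx
      exact ⟨β, hxL⟩
    choose β hβ using h1
    refine ⟨fun n => ⟨_, hβ n⟩, fun n => ⟨_, rfl⟩, fun F y hF => ?_⟩
    obtain ⟨a, ha⟩ := he F y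
    have h2 : {b : ℕ | ∃ i, ψ r ((a, b), i) ∈ F}.Finite := by
      have h3 : ((ψ r) ⁻¹' (F : Set I)).Finite := F.finite_toSet.preimage (hψ r).injOn
      refine (h3.image fun p => p.1.2).subset ?_
      rintro b ⟨i, hi⟩
      exact ⟨((a, b), i), hi, rfl⟩
    obtain ⟨b, hb⟩ := h2.infinite_compl.nonempty
    refine ⟨(a, b), fun j hj => ?_⟩
    have h4 : ¬ ∃ i, ψ r ((a, b), i) = j := by
      rintro ⟨i, rfl⟩
      exact hb ⟨i, hj⟩
    simp only [ret_free _ (hF j hj), Pi.add_apply]
    rw [Function.extend_apply' _ _ _ h4, ha j hj]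
    simp

theorem diag_props [DecidableEq I] (hI : #I = ℵ₁) {G H : AddSubgroup (I → ZMod 2)}
    (hG : base I ⊆ G) (hH : base I ⊆ H)
    (hGH : ∀ z, z ∈ G → z ∈ H → z ∈ AddSubgroup.closure (base I)) :
    IsClosed {p : G × H | p.1.1 = p.2.1} ∧ IsSigmaCompact {p : G × H | p.1.1 = p.2.1} ∧
      ¬ SeparableSpace {p : G × H | p.1.1 = p.2.1} := by
  refine ⟨isClosed_eq (continuous_subtype_val.comp continuous_fst)
    (continuous_subtype_val.comp continuous_snd), ?_, ?_⟩
  · have : CompactSpace (base I) := isCompact_iff_compactSpace.1 isCompact_base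
    let m : ∀ n : ℕ, (Fin n → base I) → G × H := fun n v =>
      (⟨∑ k, (v k).1, sum_mem fun k _ => hG (v k).2⟩, ⟨∑ k, (v k).1, sum_mem fun k _ => hH (v k).2⟩)
    have hm : ∀ n, Continuous (m n) := fun n => by
      have h1 : Continuous fun v : Fin n → base I => ∑ k, (v k).1 :=
        continuous_finsetSum _ fun k _ => continuous_subtype_val.comp (continuous_apply k)
      exact (h1.subtype_mk _).prodMk (h1.subtype_mk _)
    refine ⟨fun n => range (m n), fun n => isCompact_range (hm n), ?_⟩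
    ext p
    constructor
    · intro hp
      obtain ⟨n, v, rfl⟩ := mem_iUnion.1 hp
      rfl
    · intro hp
      have hp' : p.1.1 = p.2.1 := hp
      obtain ⟨l, hl⟩ := exists_list_sum cube_add_self _ (hGH p.1.1 p.1.2 (hp' ▸ p.2.2))
      have h2 : ∑ k : Fin l.length, (l.get k).1 = p.1.1 := by
        rw [← hl, ← List.sum_ofFn]
        congr 1
        rw [← List.ofFn_get l, List.map_ofFn]
        simp [Function.comp_def]
      exact mem_iUnion.2 ⟨l.length, l.get, Prod.ext (Subtype.ext h2) (Subtype.ext (h2.trans hp'))⟩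
  · rintro ⟨D, hD, hdense⟩
    have h1 : (⋃ p ∈ D, {i | p.1.1.1 i ≠ 0}).Countable :=
      hD.biUnion fun p _ => (finite_supp (hGH p.1.1.1 p.1.1.2
        ((show p.1.1.1 = p.1.2.1 from p.2) ▸ p.1.2.2))).countable
    obtain ⟨i, hi⟩ : ∃ i, i ∉ ⋃ p ∈ D, {i | p.1.1.1 i ≠ 0} := by
      by_contra hcon
      push Not at hcon
      rw [eq_univ_of_forall hcon, countable_iff_lt, mk_univ, hI] at h1
      exact lt_irrefl _ h1
    have hb : (Pi.single i 1 : I → ZMod 2) ∈ base I := Or.inr ⟨i, rfl⟩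
    have hc : Continuous fun p : {p : G × H | p.1.1 = p.2.1} => p.1.1.1 i :=
      (continuous_apply i).comp
        (continuous_subtype_val.comp (continuous_fst.comp continuous_subtype_val))
    have hO : IsOpen {p : {p : G × H | p.1.1 = p.2.1} | p.1.1.1 i = 1} :=
      (isOpen_discrete {(1 : ZMod 2)}).preimage hc
    obtain ⟨p, hp1, hp2⟩ := hdense.inter_open_nonempty _ hO
      ⟨⟨(⟨_, hG hb⟩, ⟨_, hH hb⟩), rfl⟩, by simp⟩
    refine hi (mem_iUnion₂.2 ⟨p, hp2, ?_⟩)
    change p.1.1.1 i ≠ 0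
    rw [show p.1.1.1 i = 1 from hp1]
    exact one_ne_zero

end Pool.Agent.MP_36bcbe_gt
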