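import Mathlib
import Pool.Agent.MP_36bcbe_gt.Main
import Pool.Agent.MP_36bcbe_gt.LCDefs

set_option autoImplicit false

open Set Function Cardinal Filter Topology TopologicalSpace

namespace Pool.Agent.MP_36bcbe_gt.LC

theorem linearIndependent_of_notMem {ι V : Type} [LinearOrder ι] [AddCommGroup V] [Module ℝ V]
    (v : ι → V) (h : ∀ i, v i ∉ Submodule.span ℝ (v '' Iio i)) : LinearIndependent ℝ v := by
  classical
  rw [linearIndependent_iff]
  intro l hl
  by_contra hne
  have hs : l.support.Nonempty := Finsupp.support_nonempty_iff.2 hne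
  set i := l.support.max' hs with hi
  have hil : i ∈ l.support := Finset.max'_mem _ _
  have hli : l i ≠ 0 := Finsupp.mem_support_iff.1 hil
  apply h i
  rw [Finsupp.linearCombination_apply, Finsupp.sum, ← Finset.add_sum_erase _ _ hil] at hl
  have h1 : v i = -((l i)⁻¹ • ∑ j ∈ l.support.erase i, l j • v j) := by
    rw [← neg_eq_of_add_eq_zero_right hl, smul_neg, neg_neg, smul_smul, inv_mul_cancel₀ hli,
      one_smul]
  rw [h1]
  refine neg_mem (Submodule.smul_mem _ _ (sum_mem fun j hj => Submodule.smul_mem _ _ ?_))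
  refine Submodule.subset_span ⟨j, ?_, rfl⟩
  exact lt_of_le_of_ne (Finset.le_max' _ _ (Finset.mem_of_mem_erase hj)) (Finset.ne_of_mem_erase hj)

theorem exists_two_subspaces {V : Type} [AddCommGroup V] [Module ℝ V]
    {μ : Cardinal} (hμ : ℵ₀ < μ) (κ : Type) [Nonempty κ] (hκ : #κ ≤ μ) (E : Set V) (hE : #E < μ)
    (R : κ → Set V) (hR : ∀ k, ∀ T : Set V, #T < μ → ∃ x ∈ R k, x ∉ Submodule.span ℝ T) :
    ∃ K L : Submodule ℝ V, E ⊆ K ∧ E ⊆ L ∧ (∀ z, z ∈ K → z ∈ L → z ∈ Submodule.span ℝ E) ∧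
      (∀ k, ∃ x ∈ R k, x ∈ K) ∧ (∀ k, ∃ y ∈ R k, y ∈ L) := by
  classical
  let ι : Type := μ.ord.ToType
  have hι : #ι = μ := mk_ord_toType _
  obtain ⟨e⟩ : Nonempty (κ × Bool ↪ ι) := by
    rw [← Cardinal.le_def, hι, mk_prod, lift_id, lift_id]
    exact mul_le_of_le hμ.le hκ (mk_le_aleph0.trans hμ.le)
  let σ : ι → κ × Bool := Function.invFun e
  have hσ : Surjective σ := Function.invFun_surjective e.injective
  obtain ⟨s, hs⟩ := exists_rec_seq (ι := ι) (V := V)
    (fun i T v => v ∈ R (σ i).1 ∧ v ∉ Submodule.span ℝ (E ∪ T))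
    (fun T => #T < μ)
    (fun i s => by
      refine lt_of_le_of_lt mk_range_le ?_
      have := mk_Iio_lt i (by simp [ι])
      rwa [hι] at this)
    (fun i T hT => hR _ _ (lt_of_le_of_lt (mk_union_le _ _) (add_lt_of_lt hμ.le hE hT)))
  let q := (Submodule.span ℝ E).mkQ
  have hq : ∀ (A : Set ι) (z : V), z ∈ Submodule.span ℝ (E ∪ s '' A) ↔
      q z ∈ Submodule.span ℝ ((fun i => q (s i)) '' A) := by
    intro A z
    have h1 : (fun i => q (s i)) '' A = q '' (s '' A) := by rw [image_image]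
    rw [h1, ← Submodule.map_span, ← Submodule.mem_comap, Submodule.comap_map_mkQ,
      Submodule.span_union]
  have hind : LinearIndependent ℝ fun i => q (s i) :=
    linearIndependent_of_notMem _ fun i hi => (hs i).2 ((hq _ _).2 hi)
  refine ⟨Submodule.span ℝ (E ∪ s '' {i | (σ i).2 = true}),
    Submodule.span ℝ (E ∪ s '' {i | (σ i).2 = false}),
    fun x hx => Submodule.subset_span (Or.inl hx),
    fun x hx => Submodule.subset_span (Or.inl hx), fun z h1 h2 => ?_, fun k => ?_, fun k => ?_⟩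
  · have hd := hind.disjoint_span_image (s := {i | (σ i).2 = true}) (t := {i | (σ i).2 = false})
      (Set.disjoint_left.2 fun i hi hi' => by simp_all)
    have h3 : q z = 0 := (Submodule.disjoint_def.1 hd) _ ((hq _ _).1 h1) ((hq _ _).1 h2)
    exact (Submodule.Quotient.mk_eq_zero _).1 h3
  · obtain ⟨a, ha⟩ := hσ (k, true)
    refine ⟨s a, ?_, Submodule.subset_span (Or.inr ⟨a, by simp [ha], rfl⟩)⟩
    have := (hs a).1
    rwa [ha] at this
  · obtain ⟨a, ha⟩ := hσ (k, false)
    refine ⟨s a, ?_, Submodule.subset_span (Or.inr ⟨a, by simp [ha], rfl⟩)⟩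
    have := (hs a).1
    rwa [ha] at this

variable {I : Type}

theorem exists_box {z : I → ℝ} {t : Set (I → ℝ)} (ht : t ∈ 𝓝 z) :
    ∃ (F : Finset I) (ε : ℝ), 0 < ε ∧ ∀ x : I → ℝ, (∀ i ∈ F, |x i - z i| < ε) → x ∈ t := by
  rw [nhds_pi, Filter.mem_pi] at ht
  obtain ⟨J, hJ, u, hu, hsub⟩ := ht
  have h1 : ∀ i ∈ J, ∀ᶠ ε in 𝓝[>] (0 : ℝ), Metric.ball (z i) ε ⊆ u i := fun i _ =>
    eventually_nhdsWithin_of_eventually_nhds (eventually_ball_subset (hu i))
  obtain ⟨ε, h2, h3⟩ := (((eventually_all_finite hJ).2 h1).and self_mem_nhdsWithin).exists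
  refine ⟨hJ.toFinset, ε, h3, fun x hx => hsub fun i hi => h2 i hi ?_⟩
  rw [Metric.mem_ball, Real.dist_eq]
  exact hx i (hJ.mem_toFinset.2 hi)

theorem dense_of_patterns {D : Set (I → ℝ)}
    (h : ∀ (F : Finset I) (y : I → ℝ) (ε : ℝ), 0 < ε → ∃ x ∈ D, ∀ i ∈ F, |x i - y i| < ε) :
    Dense D := by
  intro y
  rw [mem_closure_iff_nhds]
  intro t ht
  obtain ⟨F, ε, hε, hF⟩ := exists_box ht
  obtain ⟨x, hx, hxy⟩ := h F y ε hε
  exact ⟨x, hF x hxy, hx⟩

/-- a dense sequence in the product of lines -/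
theorem exists_dense_seq (hI : #I ≤ 𝔠) :
    ∃ e : ℕ → I → ℝ, ∀ (F : Finset I) (y : I → ℝ) (ε : ℝ), 0 < ε →
      ∃ a, ∀ i ∈ F, |e a i - y i| < ε := by
  classical
  obtain ⟨φ⟩ : Nonempty (I ↪ (ℕ → Bool)) := by
    rw [← Cardinal.le_def]
    simpa using hI
  let D : Type := Σ m : ℕ, (Fin m → Bool) → ℚ
  have : Nonempty D := ⟨⟨0, fun _ => 0⟩⟩
  obtain ⟨s, hs⟩ := exists_surjective_nat D
  refine ⟨fun a i => ((s a).2 (fun k => φ i k) : ℚ), fun F y ε hε => ?_⟩
  choose y' hy' using fun i => exists_rat_near (y i) hε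
  have hsep : ∀ p : I × I, ∃ n : ℕ, p.1 ≠ p.2 → φ p.1 n ≠ φ p.2 n := by
    intro p
    by_cases h : p.1 = p.2
    · exact ⟨0, fun h' => absurd h h'⟩
    · obtain ⟨n, hn⟩ := Function.ne_iff.1 (φ.injective.ne h)
      exact ⟨n, fun _ => hn⟩
  choose n hn using hsep
  let m : ℕ := (F ×ˢ F).sup n + 1
  have hinj : ∀ i ∈ F, ∀ j ∈ F, (fun k : Fin m => φ i k) = (fun k : Fin m => φ j k) → i = j := by
    intro i hi j hj h
    by_contra hne
    have h1 : n (i, j) < m :=
      Nat.lt_succ_of_le (Finset.le_sup (f := n) (Finset.mem_product.2 ⟨hi, hj⟩))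
    exact hn (i, j) hne (congrFun h ⟨n (i, j), h1⟩)
  let g : (Fin m → Bool) → ℚ := fun w =>
    if h : ∃ i ∈ F, (fun k : Fin m => φ i k) = w then y' h.choose else 0
  obtain ⟨a, ha⟩ := hs ⟨m, g⟩
  refine ⟨a, fun i hi => ?_⟩
  have h1 : ∃ j ∈ F, (fun k : Fin m => φ j k) = (fun k : Fin m => φ i k) := ⟨i, hi, rfl⟩
  have h2 : h1.choose = i := hinj _ h1.choose_spec.1 _ hi h1.choose_spec.2
  change |(((s a).2 (fun k => φ i k) : ℚ) : ℝ) - y i| < ε
  rw [ha]
  change |((g (fun k : Fin m => φ i k) : ℚ) : ℝ) - y i| < ε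
  simp only [g, dif_pos h1, h2]
  rw [abs_sub_comm]
  exact hy' i

/-- the linear retraction coded by `r` -/
noncomputable def ret (r : I → I →₀ ℝ) (y : I → ℝ) : I → ℝ :=
  fun i => ∑ j ∈ (r i).support, r i j * y j

/-- the free coordinates of `r` -/
def free (r : I → I →₀ ℝ) : Set I := {j | r j = Finsupp.single j 1}

theorem ret_free {r : I → I →₀ ℝ} (y : I → ℝ) {j : I} (hj : j ∈ free r) : ret r y j = y j := by
  unfold ret
  rw [show r j = Finsupp.single j 1 from hj, Finsupp.support_single _ one_ne_zero,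
    Finset.sum_singleton, Finsupp.single_eq_same, one_mul]

theorem continuous_ret (r : I → I →₀ ℝ) : Continuous (ret r) :=
  continuous_pi fun _ => continuous_finsetSum _ fun j _ => continuous_const.mul (continuous_apply j)

theorem structure_thm (S : Submodule ℝ (I → ℝ)) :
    ∃ r : I → I →₀ ℝ, (∀ i, ∀ j ∈ (r i).support, j ∈ free r) ∧ (∀ x ∈ S, ret r x = x) ∧
      ∀ (F : Finset I) (y : I → ℝ), (∀ j ∈ F, j ∈ free r) → ∃ x ∈ S, ∀ j ∈ F, x j = y j := by
  classical
  let f : I → S → ℝ := fun i x => x.1 i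
  obtain ⟨J, -, -, hspan, hind⟩ := exists_linearIndepOn_extension (K := ℝ) (v := f)
    (s := ∅) (t := Set.univ) (linearIndepOn_empty _ _) (empty_subset _)
  have hrep : ∀ i, ∃ t : I →₀ ℝ, (∀ j ∈ t.support, j ∈ J) ∧
      ∀ x : S, x.1 i = ∑ j ∈ t.support, t j * x.1 j := by
    intro i
    obtain ⟨l, hl, hli⟩ := (Finsupp.mem_span_image_iff_linearCombination _).1
      (hspan ⟨i, mem_univ _, rfl⟩)
    refine ⟨l, fun j hj => (Finsupp.mem_supported _ _).1 hl hj, fun x => ?_⟩
    have := congrFun hli x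
    rw [Finsupp.linearCombination_apply, Finsupp.sum, Finset.sum_apply] at this
    change _ = x.1 i at this
    rw [← this]
    refine Finset.sum_congr rfl fun j _ => ?_
    simp [f]
  choose t htJ ht using hrep
  let r : I → I →₀ ℝ := fun i => if i ∈ J then Finsupp.single i 1 else t i
  have hJfree : ∀ j ∈ J, j ∈ free r := fun j hj => by simp [free, r, hj]
  have hfreeJ : ∀ j ∈ free r, j ∈ J := fun j hj => by
    by_contra h
    have h1 : t j = Finsupp.single j 1 := by simpa [free, r, h] using hj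
    exact h (htJ j j (by simp [h1]))
  refine ⟨r, fun i j hj => ?_, fun x hx => ?_, fun F y hF => ?_⟩
  · by_cases hi : i ∈ J
    · simp only [r, if_pos hi, Finsupp.support_single _ one_ne_zero,
        Finset.mem_singleton] at hj
      exact hj ▸ hJfree i hi
    · simp only [r, if_neg hi] at hj
      exact hJfree j (htJ i j hj)
  · funext i
    by_cases hi : i ∈ J
    · exact ret_free x (hJfree i hi)
    · simp only [ret, r, if_neg hi]
      exact (ht i ⟨x, hx⟩).symm
  · have h1 : LinearIndependent ℝ (fun j : F => f j) :=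
      (hind.mono (t := (F : Set I)) fun j hj => hfreeJ j (hF j hj))
    have h2 := span_flip_eq_top_iff_linearIndependent.2 h1
    have h3 : ∀ w ∈ Submodule.span ℝ (range (flip fun j : F => f j)),
        ∃ x ∈ S, ∀ j : F, x j = w j := by
      intro w hw
      induction hw using Submodule.span_induction with
      | mem w hw =>
        obtain ⟨x, rfl⟩ := hw
        exact ⟨x.1, x.2, fun _ => rfl⟩
      | zero => exact ⟨0, zero_mem _, fun _ => rfl⟩
      | add a b _ _ ha hb =>
        obtain ⟨x, hx, hxa⟩ := ha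
        obtain ⟨x', hx', hxb⟩ := hb
        exact ⟨x + x', add_mem hx hx', fun j => by simp [hxa j, hxb j]⟩
      | smul c a _ ha =>
        obtain ⟨x, hx, hxa⟩ := ha
        exact ⟨c • x, S.smul_mem c hx, fun j => by simp [hxa j]⟩
    obtain ⟨x, hx, hxy⟩ := h3 (fun j : F => y j) (h2 ▸ Submodule.mem_top)
    exact ⟨x, hx, fun j hj => hxy ⟨j, hj⟩⟩

theorem perturb_notMem [Infinite I] (Φ : (I → ℝ) → (I → ℝ)) (ψ : I → I) (hψ : Injective ψ)
    (hΦ : ∀ x i, Φ x (ψ i) = x (ψ i)) (a : I → ℝ) (T : Set (I → ℝ)) (hT : #T < #(I → ℝ)) :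
    ∃ x ∈ range fun β : I → ℝ => Φ (a + Function.extend ψ β 0), x ∉ Submodule.span ℝ T := by
  by_contra hcon
  push Not at hcon
  let P : (I → ℝ) →ₗ[ℝ] (I → ℝ) := LinearMap.funLeft ℝ ℝ ψ
  have htop : Submodule.span ℝ (P '' T) = ⊤ := by
    rw [← Submodule.map_span, eq_top_iff]
    intro y _
    refine ⟨_, hcon _ ⟨y - P a, rfl⟩, ?_⟩
    funext i
    simp [P, LinearMap.funLeft_apply, hΦ, hψ.extend_apply]
  have h1 : Module.rank ℝ (I → ℝ) ≤ #T := by
    rw [← rank_top ℝ (I → ℝ), ← htop]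
    exact (rank_span_le _).trans mk_image_le
  rw [rank_fun_infinite] at h1
  exact absurd hT (not_lt.2 h1)

theorem pseudocomplete_of_fill {K : Submodule ℝ (I → ℝ)}
    (hfill : ∀ B : Set I, B.Countable → ∀ a : I → ℝ, ∃ g : K, ∀ i ∈ B, g.1 i = a i) :
    Pseudocomplete K := by
  classical
  let box : Finset I → (I → ℝ) → (I → ℝ) → Set K := fun F a b =>
    {x | ∀ i ∈ F, x.1 i ∈ Ioo (a i) (b i)}
  have hopen : ∀ F a b, IsOpen (box F a b) := fun F a b => by
    have : box F a b = ⋂ i ∈ F, (fun x : K => x.1 i) ⁻¹' Ioo (a i) (b i) := by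
      ext x; simp [box]
    rw [this]
    exact isOpen_biInter_finset fun i _ =>
      isOpen_Ioo.preimage ((continuous_apply i).comp continuous_subtype_val)
  refine ⟨fun V hV ⟨x, hx⟩ => ?_, fun _ => {U | U.Nonempty ∧ ∃ F a b, U = box F a b},
    fun _ => ⟨?_, fun V hV ⟨x, hx⟩ => ?_⟩, fun U hU hcl => ?_⟩
  · obtain ⟨s, hs, hsc, hsV⟩ := exists_mem_nhds_isClosed_subset (hV.mem_nhds hx)
    exact ⟨interior s, isOpen_interior, ⟨x, mem_interior_iff_mem_nhds.2 hs⟩,
      (closure_minimal interior_subset hsc).trans hsV⟩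
  · rintro U ⟨hne, F, a, b, rfl⟩
    exact ⟨hopen F a b, hne⟩
  · have h1 := hV.mem_nhds hx
    rw [nhds_subtype, mem_comap] at h1
    obtain ⟨u, hu, hsub⟩ := h1
    obtain ⟨F, ε, hε, hF⟩ := exists_box hu
    refine ⟨box F (fun i => x.1 i - ε) (fun i => x.1 i + ε),
      ⟨⟨x, fun i _ => ⟨by linarith, by linarith⟩⟩, F, _, _, rfl⟩, fun y hy => hsub (hF _ ?_)⟩
    intro i hi
    obtain ⟨h2, h3⟩ := hy i hi
    rw [abs_lt]
    constructor <;> linarith
  · choose hne F a b hUF using hU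
    choose x hx using hne
    have hanti : Antitone U := antitone_nat_of_succ_le fun n => subset_closure.trans (hcl n)
    let 𝒰 : Ultrafilter ℕ := hyperfilter ℕ
    have hlim : ∀ i, ∃ z : ℝ, ∀ m, i ∈ F m → z ∈ Icc (a m i) (b m i) := by
      intro i
      by_cases hi : ∃ m, i ∈ F m
      · have hev : ∀ m, i ∈ F m → Icc (a m i) (b m i) ∈ 𝒰.map fun n => (x n).1 i := by
          intro m hm
          have h1 : ∀ᶠ n in (𝒰 : Filter ℕ), m ≤ n :=
            (Nat.hyperfilter_le_atTop) (eventually_ge_atTop m)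
          refine Ultrafilter.mem_map.2 (mem_of_superset h1 fun n hn => ?_)
          have h2 : x n ∈ box (F m) (a m) (b m) := hUF m ▸ hanti hn (hx n)
          exact Ioo_subset_Icc_self (h2 i hm)
        obtain ⟨m, hm⟩ := hi
        obtain ⟨z, -, hz⟩ := isCompact_Icc.ultrafilter_le_nhds _ (le_principal_iff.2 (hev m hm))
        exact ⟨z, fun k hk => isClosed_Icc.mem_of_frequently_of_tendsto
          (f := id) (Eventually.frequently (hev k hk)) hz⟩
      · exact ⟨0, fun m hm => absurd ⟨m, hm⟩ hi⟩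
    choose z hz using hlim
    obtain ⟨g, hg⟩ := hfill (⋃ n, (F n : Set I)) (countable_iUnion fun n => (F n).countable_toSet) z
    refine ⟨g, mem_iInter.2 fun m => hcl m ?_⟩
    have hc : Tendsto (fun t : ℝ => g + t • (x (m + 1) - g)) (𝓝[>] 0) (𝓝 g) := by
      have h1 : Continuous fun t : ℝ => g + t • (x (m + 1) - g) := by fun_prop
      have h2 := h1.tendsto 0
      rw [zero_smul, add_zero] at h2
      exact h2.mono_left nhdsWithin_le_nhds
    refine mem_closure_of_tendsto hc ?_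
    filter_upwards [Ioc_mem_nhdsGT (zero_lt_one' ℝ)] with t ht
    have h2 : x (m + 1) ∈ box (F (m + 1)) (a (m + 1)) (b (m + 1)) := hUF (m + 1) ▸ hx (m + 1)
    rw [hUF (m + 1)]
    intro i hi
    obtain ⟨h3, h4⟩ := h2 i hi
    obtain ⟨h5, h6⟩ := hz i (m + 1) hi
    have h7 : g.1 i = z i := hg i (mem_iUnion.2 ⟨m + 1, hi⟩)
    have h8 : (g + t • (x (m + 1) - g)).1 i = z i + t * ((x (m + 1)).1 i - z i) := by
      simp [h7]
    rw [h8]
    constructor <;> nlinarith [ht.1, ht.2]

theorem separable_of_req {K : Submodule ℝ (I → ℝ)}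
    (hreq : ∀ r : I → I →₀ ℝ, ¬ (free r).Countable → ∃ d : ℕ × ℕ → K,
      (∀ n, ∃ y, (d n).1 = ret r y) ∧ ∀ (F : Finset I) (y : I → ℝ) (ε : ℝ), 0 < ε →
        (∀ j ∈ F, j ∈ free r) → ∃ n, ∀ j ∈ F, |(d n).1 j - y j| < ε)
    (S : Submodule ℝ K) (hS : IsClosed (S : Set K)) : SeparableSpace S := by
  classical
  obtain ⟨r, hr, hfix, hsurj⟩ := structure_thm (S.map K.subtype)
  let p : (I → ℝ) → (free r → ℝ) := fun x j => x j
  let q : (free r → ℝ) → (I → ℝ) := fun w => ret r fun j => if h : j ∈ free r then w ⟨j, h⟩ else 0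
  have hp : Continuous p := continuous_pi fun j => continuous_apply j.1
  have hq : Continuous q := by
    refine (continuous_ret r).comp (continuous_pi fun j => ?_)
    by_cases h : j ∈ free r
    · simp only [dif_pos h]
      exact continuous_apply _
    · simp only [dif_neg h]
      exact continuous_const
  have hqp : ∀ x, q (p x) = ret r x := fun x =>
    funext fun i => Finset.sum_congr rfl fun j hj => by simp only [p, dif_pos (hr i j hj)]
  have hidem : ∀ y, ret r (ret r y) = ret r y := fun y =>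
    funext fun i => Finset.sum_congr rfl fun j hj => by rw [ret_free y (hr i j hj)]
  have hclos : ∀ D : Set (I → ℝ), (∀ x ∈ D, ret r x = x) →
      (∀ (F : Finset I) (y : I → ℝ) (ε : ℝ), 0 < ε → (∀ j ∈ F, j ∈ free r) →
        ∃ x ∈ D, ∀ j ∈ F, |x j - y j| < ε) → ∀ x, ret r x = x → x ∈ closure D := by
    intro D hD hpat x hx
    have h1 : Dense (p '' D) := dense_of_patterns fun F y ε hε => by
      obtain ⟨x, hx, hxy⟩ := hpat (F.map (Embedding.subtype _))
        (fun j => if h : j ∈ free r then y ⟨j, h⟩ else 0) ε hε (by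
          intro j hj
          obtain ⟨k, -, rfl⟩ := Finset.mem_map.1 hj
          exact k.2)
      refine ⟨p x, ⟨x, hx, rfl⟩, fun j hj => ?_⟩
      have := hxy j.1 (Finset.mem_map_of_mem _ hj)
      rwa [dif_pos j.2] at this
    have h2 : q (p x) ∈ closure D := map_mem_closure hq (h1 (p x)) (by
      rintro _ ⟨y, hy, rfl⟩
      rw [hqp, hD y hy]
      exact hy)
    rwa [hqp, hx] at h2
  have hincl : IsInducing fun x : S => x.1.1 := IsInducing.subtypeVal.comp IsInducing.subtypeVal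
  have hfixS : ∀ x : S, ret r x.1.1 = x.1.1 := fun x => hfix _ ⟨x.1, x.2, rfl⟩
  by_cases hc : (free r).Countable
  · have : Countable (free r) := hc.to_subtype
    have h1 : IsInducing fun x : S => p x.1.1 := by
      refine IsInducing.of_comp (g := q) (hp.comp hincl.continuous) hq ?_
      convert hincl using 1
      funext x
      exact (hqp _).trans (hfixS x)
    have := h1.secondCountableTopology
    infer_instance
  · obtain ⟨d, hd1, hd2⟩ := hreq r hc
    have hdfix : ∀ n, ret r (d n).1 = (d n).1 := fun n => by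
      obtain ⟨y, hy⟩ := hd1 n
      rw [hy, hidem]
    have hdS : ∀ n, d n ∈ S := fun n => by
      have h1 : (d n).1 ∈ closure (Subtype.val '' (S : Set K)) := by
        refine hclos _ (fun x hx => hfix x hx) (fun F y ε hε hF => ?_) _ (hdfix n)
        obtain ⟨x, hx, hxy⟩ := hsurj F y hF
        exact ⟨x, hx, fun j hj => by rw [hxy j hj, sub_self, abs_zero]; exact hε⟩
      have h2 : d n ∈ closure (S : Set K) := by
        rw [IsInducing.subtypeVal.closure_eq_preimage_closure_image]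
        exact h1
      rwa [hS.closure_eq] at h2
    refine ⟨⟨range fun n => (⟨d n, hdS n⟩ : S), countable_range _, hincl.dense_iff.2 fun x => ?_⟩⟩
    refine hclos _ ?_ (fun F y ε hε hF => ?_) _ (hfixS x)
    · rintro _ ⟨y, -, rfl⟩
      exact hfixS y
    · obtain ⟨n, hn⟩ := hd2 F y ε hε hF
      exact ⟨(d n).1, ⟨_, ⟨n, rfl⟩, rfl⟩, hn⟩

end Pool.Agent.MP_36bcbe_gt.LC
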