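import Mathlib
import Pool.Agent.MP_36bcbe_gt.LCSpace

set_option autoImplicit false

open Set Function Cardinal Filter Topology TopologicalSpace

namespace Pool.Agent.MP_36bcbe_gt.LC

variable {I : Type}

/-- the basic compact set -/
noncomputable def base (I : Type) [DecidableEq I] : Set (I → ℝ) :=
  insert 0 (range fun i : I => Pi.single i 1)

theorem isCompact_base [DecidableEq I] : IsCompact (base I) := by
  apply Tendsto.isCompact_insert_range_of_cofinite
  rw [tendsto_pi_nhds]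
  intro j
  refine tendsto_const_nhds.congr' ?_
  filter_upwards [eventually_cofinite_ne j] with i hi
  rw [Pi.single_eq_of_ne hi.symm]
  rfl

theorem finite_supp [DecidableEq I] {x : I → ℝ} (hx : x ∈ Submodule.span ℝ (base I)) :
    {i | x i ≠ 0}.Finite := by
  induction hx using Submodule.span_induction with
  | mem x hx =>
    rcases hx with rfl | ⟨j, rfl⟩
    · simp
    · refine (finite_singleton j).subset fun i hi => ?_
      by_contra h
      exact hi (Pi.single_eq_of_ne h _)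
  | zero => simp
  | add x y _ _ hx hy =>
    refine (hx.union hy).subset fun i hi => ?_
    by_contra h
    simp only [mem_union, mem_ofPred_eq, not_or, not_not] at h
    exact hi (by simp [h.1, h.2])
  | smul c x _ hx =>
    refine hx.subset fun i hi h => hi ?_
    simp [h]

theorem exists_spaces [DecidableEq I] (hI : #I = ℵ₁) :
    ∃ K L : Submodule ℝ (I → ℝ), base I ⊆ K ∧ base I ⊆ L ∧
      (∀ z, z ∈ K → z ∈ L → z ∈ Submodule.span ℝ (base I)) ∧
      ∀ M : Submodule ℝ (I → ℝ), M = K ∨ M = L → Pseudocomplete M ∧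
        ∀ S : Submodule ℝ M, IsClosed (S : Set M) → SeparableSpace S := by
  classical
  have hunc : ¬ (Set.univ : Set I).Countable := by
    rw [countable_iff_lt, mk_univ, hI]; exact lt_irrefl _
  have hinf : Infinite I := by
    rw [infinite_iff, hI]; exact aleph0_lt_aleph_one.le
  have hpow : (2 : Cardinal.{0}) ^ ℵ₁ = (2 ^ ℵ₁) ^ ℵ₁ := by
    rw [← power_mul, mul_eq_self aleph0_lt_aleph_one.le]
  have hμ : #(I → ℝ) = 2 ^ ℵ₁ := by
    simp only [mk_pi, prod_const, lift_id, mk_real, hI]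
    rw [← two_power_aleph0, ← power_mul,
      mul_eq_right aleph0_lt_aleph_one.le aleph0_lt_aleph_one.le aleph0_ne_zero]
  have hlt : ℵ₁ < #(I → ℝ) := by rw [hμ]; exact cantor _
  have hω : ℵ₀ < #(I → ℝ) := aleph0_lt_aleph_one.trans hlt
  obtain ⟨e, he⟩ := exists_dense_seq (I := I) (hI ▸ aleph_one_le_continuum)
  have hcompl : ∀ B : ℕ → I, ¬ ((range B)ᶜ).Countable := fun B h =>
    hunc (by rw [← union_compl_self (range B)]; exact (countable_range B).union h)
  have hψ1 : ∀ r : I → I →₀ ℝ, ∃ ψ : (ℕ × ℕ) × I → I, Injective ψ ∧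
      (¬ (free r).Countable → ∀ p, ψ p ∈ free r) := fun r => by
    by_cases h : (free r).Countable
    · obtain ⟨ψ, h1, -⟩ := exists_inj_into hI hunc
      exact ⟨ψ, h1, fun h' => absurd h h'⟩
    · obtain ⟨ψ, h1, h2⟩ := exists_inj_into hI h
      exact ⟨ψ, h1, fun _ => h2⟩
  choose ψ hψ hψJ using hψ1
  choose χ hχ hχB using fun B : ℕ → I => exists_inj_into hI (hcompl B)
  let κ : Type := ((I → I →₀ ℝ) × (ℕ × ℕ)) ⊕ ((ℕ → I) × (I → ℝ))
  let R : κ → Set (I → ℝ) := fun k => match k with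
    | Sum.inl (r, n) => range fun β : I → ℝ => (if (free r).Countable then id else ret r)
        (e n.1 + Function.extend (fun i => ψ r (n, i)) β 0)
    | Sum.inr (B, a) =>
        range fun β : I → ℝ => id (a + Function.extend (fun i => χ B ((0, 0), i)) β 0)
  have hκ : #κ ≤ #(I → ℝ) := by
    have h0 : #(I →₀ ℝ) ≤ 2 ^ ℵ₁ := hμ ▸ mk_le_of_injective DFunLike.coe_injective
    have h1 : #(I → I →₀ ℝ) ≤ #(I → ℝ) := by
      rw [hμ, hpow]
      simp only [mk_pi, prod_const, lift_id, hI]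
      exact power_le_power_right h0
    have h2 : #(ℕ → I) ≤ #(I → ℝ) := by
      rw [hμ, ← power_self_eq aleph0_lt_aleph_one.le]
      simp only [mk_pi, prod_const, lift_id, mk_nat, hI]
      exact power_le_power_left (aleph_pos 1).ne' aleph0_lt_aleph_one.le
    have h3 : #(ℕ × ℕ) ≤ #(I → ℝ) := mk_le_aleph0.trans hω.le
    simp only [κ, mk_sum, lift_id]
    refine add_le_of_le hω.le ?_ ?_
    · rw [mk_prod, lift_id, lift_id]
      exact mul_le_of_le hω.le h1 h3
    · rw [mk_prod, lift_id, lift_id]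
      exact mul_le_of_le hω.le h2 le_rfl
  have hE : #(base I) < #(I → ℝ) := by
    refine lt_of_le_of_lt mk_insert_le (add_lt_of_lt hω.le ?_ (one_lt_aleph0.trans hω))
    exact lt_of_le_of_lt mk_range_le (hI ▸ hlt)
  have hR : ∀ k, ∀ T : Set (I → ℝ), #T < #(I → ℝ) → ∃ x ∈ R k, x ∉ Submodule.span ℝ T := by
    rintro (⟨r, n⟩ | ⟨B, a⟩)
    · refine perturb_notMem _ _ (fun i j hij => (Prod.ext_iff.1 (hψ r hij)).2) (fun x i => ?_) _
      by_cases h : (free r).Countable
      · rw [if_pos h, id]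
      · rw [if_neg h]
        exact ret_free x (hψJ r h _)
    · exact perturb_notMem id _ (fun i j hij => (Prod.ext_iff.1 (hχ B hij)).2) (fun _ _ => rfl) _
  have : Nonempty κ := ⟨Sum.inl (fun _ => 0, 0, 0)⟩
  obtain ⟨K, L, hK, hL, hKL, hRK, hRL⟩ := exists_two_subspaces hω κ hκ _ hE R hR
  refine ⟨K, L, hK, hL, hKL, fun M hM => ?_⟩
  have hRM : ∀ k, ∃ x ∈ R k, x ∈ M := by
    rcases hM with rfl | rfl
    · exact hRK
    · exact hRL
  refine ⟨pseudocomplete_of_fill fun B hB a => ?_, separable_of_req fun r hr => ?_⟩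
  · obtain ⟨i₀⟩ : Nonempty I := inferInstance
    obtain ⟨b, hb⟩ := (hB.insert i₀).exists_eq_range (insert_nonempty _ _)
    obtain ⟨_, ⟨β, rfl⟩, hx⟩ := hRM (Sum.inr (b, a))
    refine ⟨⟨_, hx⟩, fun i hi => ?_⟩
    have h1 : ¬ ∃ j, χ b ((0, 0), j) = i := by
      rintro ⟨j, rfl⟩
      refine hχB b ((0, 0), j) ?_
      rw [← hb]
      exact Or.inr hi
    simp only [id, Pi.add_apply]
    rw [Function.extend_apply' _ _ _ h1]
    simp
  · have h1 : ∀ n : ℕ × ℕ, ∃ β : I → ℝ,
        ret r (e n.1 + Function.extend (fun i => ψ r (n, i)) β 0) ∈ M := fun n => by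
      obtain ⟨x, hx, hxM⟩ := hRM (Sum.inl (r, n))
      simp only [R, if_neg hr] at hx
      obtain ⟨β, rfl⟩ := hx
      exact ⟨β, hxM⟩
    choose β hβ using h1
    refine ⟨fun n => ⟨_, hβ n⟩, fun n => ⟨_, rfl⟩, fun F y ε hε hF => ?_⟩
    obtain ⟨a, ha⟩ := he F y ε hε
    have h2 : {b : ℕ | ∃ i, ψ r ((a, b), i) ∈ F}.Finite := by
      have h3 : ((ψ r) ⁻¹' (F : Set I)).Finite := F.finite_toSet.preimage (hψ r).injOn
      refine (h3.image fun p => p.1.2).subset ?_
      rintro b ⟨i, hi⟩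
      exact ⟨((a, b), i), hi, rfl⟩
    obtain ⟨b, hb⟩ := h2.infinite_compl.nonempty
    refine ⟨(a, b), fun j hj => ?_⟩
    have h4 : ¬ ∃ i, ψ r ((a, b), i) = j := by
      rintro ⟨i, rfl⟩
      exact hb ⟨i, hj⟩
    simp only [ret_free _ (hF j hj), Pi.add_apply]
    rw [Function.extend_apply' _ _ _ h4]
    simpa using ha j hj

/-- the diagonal subspace of the product -/
def diag (K L : Submodule ℝ (I → ℝ)) : Submodule ℝ (K × L) where
  carrier := {p | p.1.1 = p.2.1}
  add_mem' := fun ha hb => congrArg₂ (· + ·) ha hb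
  zero_mem' := rfl
  smul_mem' := fun c _ ha => congrArg (c • ·) ha

theorem diag_props [DecidableEq I] (hI : #I = ℵ₁) {K L : Submodule ℝ (I → ℝ)}
    (hK : base I ⊆ K) (hL : base I ⊆ L)
    (hKL : ∀ z, z ∈ K → z ∈ L → z ∈ Submodule.span ℝ (base I)) :
    IsClosed (diag K L : Set (K × L)) ∧ IsSigmaCompact (diag K L : Set (K × L)) ∧
      ¬ SeparableSpace (diag K L) := by
  refine ⟨isClosed_eq (continuous_subtype_val.comp continuous_fst)
    (continuous_subtype_val.comp continuous_snd), ?_, ?_⟩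
  · have : CompactSpace (base I) := isCompact_iff_compactSpace.1 isCompact_base
    let m : ∀ n : ℕ × ℕ, (Fin n.1 → Icc (-(n.2 : ℝ)) n.2) × (Fin n.1 → base I) → K × L := fun n v =>
      (⟨∑ k, (v.1 k).1 • (v.2 k).1, sum_mem fun k _ => K.smul_mem _ (hK (v.2 k).2)⟩,
        ⟨∑ k, (v.1 k).1 • (v.2 k).1, sum_mem fun k _ => L.smul_mem _ (hL (v.2 k).2)⟩)
    have hm : ∀ n, Continuous (m n) := fun n => by
      have h1 : Continuous fun v : (Fin n.1 → Icc (-(n.2 : ℝ)) n.2) × (Fin n.1 → base I) =>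
          ∑ k, (v.1 k).1 • (v.2 k).1 := by fun_prop
      exact (h1.subtype_mk _).prodMk (h1.subtype_mk _)
    have heq : (diag K L : Set (K × L)) = ⋃ n, range (m n) := by
      ext p
      constructor
      · intro hp
        have hp' : p.1.1 = p.2.1 := hp
        obtain ⟨n, c, g, hg⟩ := Submodule.mem_span_set'.1 (hKL p.1.1 p.1.2 (hp' ▸ p.2.2))
        obtain ⟨N, hN⟩ := exists_nat_ge (∑ k, |c k|)
        have hc : ∀ k, c k ∈ Icc (-(N : ℝ)) N := fun k => abs_le.1
          ((Finset.single_le_sum (fun k _ => abs_nonneg (c k)) (Finset.mem_univ k)).trans hN)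
        exact mem_iUnion.2 ⟨(n, N), (fun k => ⟨c k, hc k⟩, g),
          Prod.ext (Subtype.ext hg) (Subtype.ext (hg.trans hp'))⟩
      · intro hp
        obtain ⟨n, v, rfl⟩ := mem_iUnion.1 hp
        rfl
    rw [heq]
    exact isSigmaCompact_iUnion_of_isCompact _ fun n => isCompact_range (hm n)
  · rintro ⟨D, hD, hdense⟩
    have h1 : (⋃ p ∈ D, {i | p.1.1.1 i ≠ 0}).Countable :=
      hD.biUnion fun p _ => (finite_supp (hKL p.1.1.1 p.1.1.2
        ((show p.1.1.1 = p.1.2.1 from p.2) ▸ p.1.2.2))).countable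
    obtain ⟨i, hi⟩ : ∃ i, i ∉ ⋃ p ∈ D, {i | p.1.1.1 i ≠ 0} := by
      by_contra hcon
      push Not at hcon
      rw [eq_univ_of_forall hcon, countable_iff_lt, mk_univ, hI] at h1
      exact lt_irrefl _ h1
    have hb : (Pi.single i 1 : I → ℝ) ∈ base I := Or.inr ⟨i, rfl⟩
    have hc : Continuous fun p : diag K L => p.1.1.1 i :=
      (continuous_apply i).comp
        (continuous_subtype_val.comp (continuous_fst.comp continuous_subtype_val))
    have hO : IsOpen {p : diag K L | p.1.1.1 i ≠ 0} := isOpen_ne_fun hc continuous_const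
    obtain ⟨p, hp1, hp2⟩ := hdense.inter_open_nonempty _ hO
      ⟨⟨(⟨_, hK hb⟩, ⟨_, hL hb⟩), rfl⟩, by simp⟩
    exact hi (mem_iUnion₂.2 ⟨p, hp2, hp1⟩)

end Pool.Agent.MP_36bcbe_gt.LC
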