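import Mathlib
import Pool.Agent.Mg.F36bcbe.Gf332cf

/-! A subgroup of the Cantor cube with a prescribed least power that contains a closed
non-separable subgroup. -/

set_option autoImplicit false

open Set Function Cardinal Filter Topology TopologicalSpace

namespace Pool.Agent.MP_36bcbe_gt.Pw

section rec

variable {K : Type} [AddCommGroup K] [Module (ZMod 2) K]

theorem two (x : K) : x + x = 0 := by
  rw [← two_smul (ZMod 2) x, show (2 : ZMod 2) = 0 from rfl, zero_smul]

theorem span_closure {S : Set K} {x : K} (hx : x ∈ Submodule.span (ZMod 2) S) :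
    x ∈ AddSubgroup.closure S := by
  induction hx using Submodule.span_induction with
  | mem x hx => exact AddSubgroup.subset_closure hx
  | zero => exact zero_mem _
  | add x y _ _ hx hy => exact add_mem hx hy
  | smul c x _ hx =>
    rcases z2_cases c with rfl | rfl
    · rw [zero_smul]
      exact zero_mem _
    · rwa [one_smul]

theorem mk_span_lt {μ : Cardinal} (hμ : ℵ₀ < μ) (S : Set K) (hS : #S < μ) :
    #(Submodule.span (ZMod 2) S) < μ :=
  (mk_le_mk_of_subset fun _ hx => span_closure hx).trans_lt (mk_closure_lt two hμ S hS)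

theorem span_sum (y : ℕ → K) {v : K} (hv : v ∈ Submodule.span (ZMod 2) (range y)) :
    ∃ c : Finset ℕ, v = ∑ l ∈ c, y l := by
  obtain ⟨c, rfl⟩ := Finsupp.mem_span_range_iff_exists_finsupp.1 hv
  refine ⟨c.support, Finset.sum_congr rfl fun l hl => ?_⟩
  rw [(z2_cases (c l)).resolve_left (Finsupp.mem_support_iff.1 hl)]
  exact one_smul _ _

theorem dep (y : ℕ → K) {B : Type} (hB : #{l | y l ≠ 0} < #B) (v : B → K)
    (hv : ∀ i, v i ∈ Submodule.span (ZMod 2) (range y)) :
    ∃ F : Finset B, F.Nonempty ∧ ∑ i ∈ F, v i = 0 := by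
  classical
  by_contra hn
  push Not at hn
  have h1 : LinearIndependent (ZMod 2) v := linearIndependent_iff'.2 fun s g hg i hi => by
    by_contra hgi
    refine hn (s.filter fun i => g i ≠ 0) ⟨i, Finset.mem_filter.2 ⟨hi, hgi⟩⟩ ?_
    rw [← hg, Finset.sum_filter]
    refine Finset.sum_congr rfl fun k _ => ?_
    rcases z2_cases (g k) with h | h <;> simp [h]
  have h2 : Submodule.span (ZMod 2) (range y) ≤ Submodule.span (ZMod 2) (y '' {l | y l ≠ 0}) := by
    rw [Submodule.span_le]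
    rintro _ ⟨l, rfl⟩
    by_cases h : y l = 0
    · rw [h]
      exact zero_mem _
    · exact Submodule.subset_span ⟨l, h, rfl⟩
  have h3 : LinearIndependent (ZMod 2) fun i =>
      (⟨v i, h2 (hv i)⟩ : Submodule.span (ZMod 2) (y '' {l | y l ≠ 0})) :=
    LinearIndependent.of_comp (Submodule.subtype _) h1
  exact absurd ((h3.cardinal_le_rank.trans (rank_span_le _)).trans mk_image_le) hB.not_ge

/-- The set that the new sums must avoid. -/
def bad {B : Type} (φ : B → K →+ K) (W : Set K) : Set K :=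
  {z | ∃ w ∈ W, ∃ (i : B) (x : K), (∃ F : Finset B, F.Nonempty ∧ ∑ k ∈ F, φ k x ∈ W) ∧
    z = w + φ i x}

omit [Module (ZMod 2) K] in
theorem mk_bad_lt {B : Type} (φ : B → K →+ K)
    (hφ : ∀ F : Finset B, F.Nonempty → Injective fun x => ∑ k ∈ F, φ k x) {μ : Cardinal}
    (hμ : ℵ₀ < μ) (hB : #B < μ) (W : Set K) (hW : #W < μ) : #(bad φ W) < μ := by
  classical
  obtain ⟨X, hX⟩ : ∃ X : Set K, X = {x | ∃ F : Finset B, F.Nonempty ∧ ∑ k ∈ F, φ k x ∈ W} :=
    ⟨_, rfl⟩
  have h1 : #(Finset B) < μ :=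
    ((mk_le_of_surjective List.toFinset_surjective).trans (mk_list_le_max B)).trans_lt
      (max_lt hμ hB)
  have h2 : #X < μ := by
    have h : ∀ x : X, ∃ F : Finset B, F.Nonempty ∧ ∑ k ∈ F, φ k x.1 ∈ W := fun x =>
      hX.subset x.2
    choose F hF1 hF2 using h
    have h3 : #X ≤ #(Finset B × W) := mk_le_of_injective
      (f := fun x => (F x, ⟨_, hF2 x⟩)) fun x x' e => by
        have e1 : F x = F x' := congrArg Prod.fst e
        have e2 : ∑ k ∈ F x, φ k x.1 = ∑ k ∈ F x', φ k x'.1 :=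
          congrArg (fun p : Finset B × W => p.2.1) e
        rw [← e1] at e2
        exact Subtype.ext (hφ _ (hF1 x) e2)
    refine h3.trans_lt ?_
    rw [mk_prod, lift_id, lift_id]
    exact mul_lt_of_lt hμ.le h1 hW
  have h4 : bad φ W ⊆ range fun p : W × B × X => p.1.1 + φ p.2.1 p.2.2.1 := by
    rintro _ ⟨w, hw, i, x, hx, rfl⟩
    exact ⟨(⟨w, hw⟩, i, ⟨x, hX ▸ hx⟩), rfl⟩
  refine ((mk_le_mk_of_subset h4).trans mk_range_le).trans_lt ?_
  rw [mk_prod, mk_prod, lift_id, lift_id, lift_id, lift_id]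
  exact mul_lt_of_lt hμ.le hW (mul_lt_of_lt hμ.le hB h2)

theorem exists_subgroup {B : Type} [Nonempty B] (φ : B → K →+ K)
    (hφ : ∀ F : Finset B, F.Nonempty → Injective fun x => ∑ k ∈ F, φ k x) {μ : Cardinal}
    (hμ : ℵ₀ < μ) (hB : #B < μ) (κ : Type) [Nonempty κ] (hκ : #κ ≤ μ) (E : Set K) (hE : #E < μ)
    (R : κ → Set (ℕ → K))
    (hR : ∀ k, ∀ U : Set K, #U < μ → ∃ y ∈ R k, #{l | y l ≠ 0} < #B ∧
      ∀ c : Finset ℕ, ∑ l ∈ c, y l = 0 ∨ ∑ l ∈ c, y l ∉ U) :
    ∃ G : AddSubgroup K, E ⊆ G ∧ (∀ k, ∃ y ∈ R k, ∀ l, y l ∈ G) ∧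
      ∀ x, (∀ i, φ i x ∈ G) → ∃ i, φ i x ∈ AddSubgroup.closure E := by
  classical
  let ι : Type := μ.ord.ToType
  have hι : #ι = μ := mk_ord_toType _
  obtain ⟨e⟩ : Nonempty (κ ↪ ι) := by
    rw [← Cardinal.le_def, hι]
    exact hκ
  let σ : ι → κ := Function.invFun e
  have hσ : Surjective σ := Function.invFun_surjective e.injective
  let W : Set (ℕ → K) → Submodule (ZMod 2) K := fun T =>
    Submodule.span (ZMod 2) (E ∪ ⋃ y ∈ T, range y)
  obtain ⟨s, hs⟩ := exists_rec_seq (ι := ι) (V := ℕ → K)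
    (fun i T y => y ∈ R (σ i) ∧ #{l | y l ≠ 0} < #B ∧
      ∀ c : Finset ℕ, ∑ l ∈ c, y l = 0 ∨ ∑ l ∈ c, y l ∉ bad φ (W T))
    (fun T => #T < μ)
    (fun i s => by
      refine lt_of_le_of_lt mk_range_le ?_
      have := mk_Iio_lt i (by simp [ι])
      rwa [hι] at this)
    (fun i T hT => by
      refine hR (σ i) _ (mk_bad_lt φ hφ hμ hB _ (mk_span_lt hμ _ ?_))
      refine lt_of_le_of_lt (mk_union_le _ _) (add_lt_of_lt hμ.le hE ?_)
      have h1 : (⋃ y ∈ T, range y) ⊆ range fun p : T × ℕ => p.1.1 p.2 := fun z hz => by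
        obtain ⟨y, hy, l, rfl⟩ := mem_iUnion₂.1 hz
        exact ⟨(⟨y, hy⟩, l), rfl⟩
      refine ((mk_le_mk_of_subset h1).trans mk_range_le).trans_lt ?_
      rw [mk_prod, lift_id, lift_id, mk_nat]
      exact mul_lt_of_lt hμ.le hT hμ)
  have mono : ∀ {J J' : Set ι}, J ⊆ J' → W (s '' J) ≤ W (s '' J') := fun h =>
    Submodule.span_mono (union_subset_union_right _ (biUnion_subset_biUnion_left (image_mono h)))
  have step : ∀ b z, z ∈ W (s '' Iic b) →
      ∃ v ∈ Submodule.span (ZMod 2) (range (s b)), z + v ∈ W (s '' Iio b) := by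
    intro b z hz
    have h1 : W (s '' Iic b) ≤ W (s '' Iio b) ⊔ Submodule.span (ZMod 2) (range (s b)) := by
      rw [← Submodule.span_union]
      refine Submodule.span_mono ?_
      rintro x (hx | hx)
      · exact Or.inl (Or.inl hx)
      · obtain ⟨_, ⟨j, hj, rfl⟩, hx'⟩ := mem_iUnion₂.1 hx
        rcases (mem_Iic.1 hj).lt_or_eq with h | h
        · exact Or.inl (Or.inr (mem_iUnion₂.2 ⟨_, ⟨j, h, rfl⟩, hx'⟩))
        · exact Or.inr (h ▸ hx')
    obtain ⟨w, hw, v, hv, rfl⟩ := Submodule.mem_sup.1 (h1 hz)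
    exact ⟨v, hv, by rwa [add_assoc, two, add_zero]⟩
  have lim : ∀ (J : Set ι) z, z ∈ W (s '' J) → z ∈ W (s '' ∅) ∨ ∃ b ∈ J, z ∈ W (s '' Iic b) := by
    intro J z hz
    induction hz using Submodule.span_induction with
    | mem x hx =>
      rcases hx with hx | hx
      · exact Or.inl (Submodule.subset_span (Or.inl hx))
      · obtain ⟨_, ⟨j, hj, rfl⟩, hx⟩ := mem_iUnion₂.1 hx
        exact Or.inr ⟨j, hj, Submodule.subset_span
          (Or.inr (mem_iUnion₂.2 ⟨_, ⟨j, mem_Iic.2 le_rfl, rfl⟩, hx⟩))⟩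
    | zero => exact Or.inl (zero_mem _)
    | add x y _ _ hx hy =>
      rcases hx with hx | ⟨b, hb, hx⟩ <;> rcases hy with hy | ⟨c, hc, hy⟩
      · exact Or.inl (add_mem hx hy)
      · exact Or.inr ⟨c, hc, add_mem (mono (empty_subset _) hx) hy⟩
      · exact Or.inr ⟨b, hb, add_mem hx (mono (empty_subset _) hy)⟩
      · rcases le_total b c with h | h
        · exact Or.inr ⟨c, hc, add_mem (mono (Iic_subset_Iic.2 h) hx) hy⟩
        · exact Or.inr ⟨b, hb, add_mem hx (mono (Iic_subset_Iic.2 h) hy)⟩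
    | smul a x _ hx =>
      exact hx.imp (Submodule.smul_mem _ a) fun ⟨b, hb, hx⟩ => ⟨b, hb, Submodule.smul_mem _ a hx⟩
  have key : ∀ b x i, (∃ F : Finset B, F.Nonempty ∧ ∑ k ∈ F, φ k x ∈ W (s '' Iio b)) →
      φ i x ∈ W (s '' Iic b) → φ i x ∈ W (s '' Iio b) := by
    intro b x i hF hx
    obtain ⟨v, hv, h⟩ := step b _ hx
    obtain ⟨c, rfl⟩ := span_sum _ hv
    rcases (hs b).2.2 c with h0 | h0
    · rwa [h0, add_zero] at h
    · exact absurd ⟨_, h, i, x, hF, by rw [add_right_comm, two, zero_add]⟩ h0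
  have down : ∀ b0 x i i0, φ i0 x ∈ W (s '' Iic b0) → ∀ b, φ i x ∈ W (s '' Iic b) →
      φ i x ∈ W (s '' Iic b0) := by
    intro b0 x i i0 h0 b
    induction b using WellFoundedLT.induction with
    | ind b ih =>
      intro hb
      rcases le_or_gt b b0 with h | h
      · exact mono (Iic_subset_Iic.2 h) hb
      · rcases lim _ _ (key b x i ⟨{i0}, Finset.singleton_nonempty _, by
          rw [Finset.sum_singleton]
          exact mono (Iic_subset_Iio.2 h) h0⟩ hb) with h1 | ⟨c, hc, h1⟩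
        · exact mono (empty_subset _) h1
        · exact ih c hc h1
  have main : ∀ x, (∀ i, φ i x ∈ W (s '' univ)) → ∀ b, (∃ i, φ i x ∈ W (s '' Iic b)) →
      ∃ i, φ i x ∈ W (s '' ∅) := by
    intro x hx b
    induction b using WellFoundedLT.induction with
    | ind b ih =>
      rintro ⟨i0, h0⟩
      have h1 : ∀ i, φ i x ∈ W (s '' Iic b) := fun i =>
        (lim _ _ (hx i)).elim (fun h => mono (empty_subset _) h)
          fun ⟨c, _, h⟩ => down b x i i0 h0 c h
      choose v hv hw using fun i => step b _ (h1 i)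
      obtain ⟨F, hF, hF0⟩ := dep (s b) (hs b).2.1 v hv
      have h2 : ∑ k ∈ F, φ k x ∈ W (s '' Iio b) := by
        have := Submodule.sum_mem (W (s '' Iio b)) fun k (_ : k ∈ F) => hw k
        rwa [Finset.sum_add_distrib, hF0, add_zero] at this
      rcases lim _ _ (key b x i0 ⟨F, hF, h2⟩ h0) with h | ⟨c, hc, h⟩
      · exact ⟨i0, h⟩
      · exact ih c hc ⟨i0, h⟩
  refine ⟨(W (s '' univ)).toAddSubgroup, fun x hx => Submodule.subset_span (Or.inl hx),
    fun k => ?_, fun x hx => ?_⟩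
  · obtain ⟨a, rfl⟩ := hσ k
    exact ⟨s a, (hs a).1, fun l => Submodule.subset_span
      (Or.inr (mem_iUnion₂.2 ⟨_, ⟨a, mem_univ _, rfl⟩, l, rfl⟩))⟩
  · obtain ⟨i0⟩ := ‹Nonempty B›
    obtain ⟨i, hi⟩ : ∃ i, φ i x ∈ W (s '' ∅) :=
      (lim _ _ (hx i0)).elim (fun h => ⟨i0, h⟩) fun ⟨c, _, h⟩ => main x hx c ⟨i0, h⟩
    refine ⟨i, span_closure ?_⟩
    simpa [W] using hi

end rec

section tri

variable {J Λ : Type}

/-- A triangular system of equations over the field with two elements has a solution. -/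
theorem solve [LinearOrder Λ] [WellFoundedLT Λ] (A : Λ → Finset J) (j : Λ → J) (P : Set Λ)
    (h1 : ∀ a ∈ P, j a ∈ A a) (h2 : ∀ a ∈ P, ∀ b ∈ P, a < b → j b ∉ A a) (e : J → ZMod 2)
    (bit : Λ → ZMod 2) :
    ∃ y : J → ZMod 2, (∀ x, x ∉ j '' P → y x = e x) ∧ ∀ a ∈ P, ∑ x ∈ A a, y x = bit a := by
  classical
  have hinj : ∀ a ∈ P, ∀ b ∈ P, j a = j b → a = b := fun a ha b hb h => by
    rcases lt_trichotomy a b with c | c | c
    · exact absurd (h ▸ h1 a ha) (h2 a ha b hb c)
    · exact c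
    · exact absurd (h ▸ h1 b hb) (h2 b hb a ha c)
  let val : Set (Λ × ZMod 2) → J → ZMod 2 := fun W x =>
    if h : ∃ p ∈ W, p.1 ∈ P ∧ j p.1 = x then h.choose.2 else e x
  obtain ⟨s, hs⟩ := exists_rec_seq (ι := Λ) (V := Λ × ZMod 2)
    (fun a W v => v.1 = a ∧ v.2 = bit a - ∑ x ∈ (A a).erase (j a), val W x) (fun _ => True)
    (fun _ _ => trivial) fun a W _ => ⟨(a, _), rfl, rfl⟩
  have hv : ∀ (L : Set Λ) (a : Λ), a ∈ L → a ∈ P → val (s '' L) (j a) = (s a).2 := by
    intro L a ha hP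
    have h : ∃ p ∈ s '' L, p.1 ∈ P ∧ j p.1 = j a := ⟨s a, ⟨a, ha, rfl⟩, by
      rw [(hs a).1]
      exact ⟨hP, rfl⟩⟩
    obtain ⟨⟨b, -, hb⟩, c1, c2⟩ := h.choose_spec
    have h3 : val (s '' L) (j a) = h.choose.2 := dif_pos h
    rw [h3, ← hb] at *
    rw [(hs b).1] at c1 c2
    rw [hinj b c1 a hP c2]
  have hn : ∀ (L : Set Λ) (x : J), (∀ a ∈ L, a ∈ P → j a ≠ x) → val (s '' L) x = e x := by
    intro L x h
    refine dif_neg ?_
    rintro ⟨_, ⟨a, ha, rfl⟩, c1, c2⟩
    rw [(hs a).1] at c1 c2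
    exact h a ha c1 c2
  refine ⟨val (s '' univ), fun x hx => hn _ x fun a _ ha h => hx ⟨a, ha, h⟩, fun a ha => ?_⟩
  rw [← Finset.add_sum_erase _ _ (h1 a ha), hv _ a (mem_univ _) ha, (hs a).2, sub_add,
    ← Finset.sum_sub_distrib, Finset.sum_eq_zero, sub_zero]
  intro x hx
  obtain ⟨x1, x2⟩ := Finset.mem_erase.1 hx
  rw [sub_eq_zero]
  by_cases h : ∃ b ∈ P, j b = x
  · obtain ⟨b, hb, rfl⟩ := h
    have hlt : b < a := by
      rcases lt_trichotomy a b with c | c | c
      · exact absurd x2 (h2 a ha b hb c)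
      · exact absurd (by rw [c]) x1
      · exact c
    rw [hv _ b hlt hb, hv _ b (mem_univ _) hb]
  · push Not at h
    rw [hn _ x fun b _ hb => h b hb, hn _ x fun b _ hb => h b hb]

end tri

section req

variable {I : Type}

open Classical in
/-- The free coordinates whose sum is the sum of the coordinates in the rows of `c` at `t`. -/
noncomputable def frm (r : ℕ × I → Finset (ℕ × I)) (c : Finset ℕ) (t : I) : Finset (ℕ × I) :=
  (c.biUnion fun l => r (l, t)).filter fun x =>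
    (∑ l ∈ c, if x ∈ r (l, t) then (1 : ZMod 2) else 0) = 1

theorem sum_frm (r : ℕ × I → Finset (ℕ × I)) (c : Finset ℕ) (t : I) (y : ℕ × I → ZMod 2) :
    ∑ l ∈ c, ret r y (l, t) = ∑ x ∈ frm r c t, y x := by
  classical
  have h1 : ∀ l ∈ c, ret r y (l, t) =
      ∑ x ∈ c.biUnion fun l => r (l, t), (if x ∈ r (l, t) then (1 : ZMod 2) else 0) * y x := by
    intro l hl
    simp only [ite_mul, one_mul, zero_mul]
    rw [← Finset.sum_filter, Finset.filter_mem_eq_inter, Finset.inter_eq_right.2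
      (Finset.subset_biUnion_of_mem (fun l => r (l, t)) hl)]
    rfl
  rw [Finset.sum_congr rfl h1, Finset.sum_comm, frm, Finset.sum_filter]
  refine Finset.sum_congr (by congr) fun x _ => ?_
  rw [← Finset.sum_mul]
  split_ifs with h
  · convert one_mul (y x)
  · rcases z2_cases (∑ l ∈ c, if x ∈ r (l, t) then (1 : ZMod 2) else 0) with h0 | h0
    · rw [h0, zero_mul]
    · exact absurd (by convert h0) h

/-- The blocks of coordinates on which the finite sums can be prescribed. -/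
theorem blocks (hI : #I = ℵ₁) (r : ℕ × I → Finset (ℕ × I)) :
    ∃ (T : Set (ℕ × I)) (Blk : ℕ × ℕ → Set (ℕ × I)), T.Countable ∧
      (∀ (a : ℕ) (F : Finset (ℕ × I)), ∃ b, ∀ x ∈ F, x ∉ Blk (a, b)) ∧ (∀ k, Disjoint (Blk k) T) ∧
      ∀ (k : ℕ × ℕ) (e : ℕ × I → ZMod 2), (∀ x ∈ T, e x = 0) →
        ∀ U : Set (I → ZMod 2), #U < #(I → ZMod 2) →
          ∃ y : ℕ × I → ZMod 2, (∀ x, x ∉ Blk k → y x = e x) ∧ ∀ c : Finset ℕ,
            (∑ l ∈ c, fun t => ret r y (l, t)) = 0 ∨ (∑ l ∈ c, fun t => ret r y (l, t)) ∉ U := by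
  classical
  have hinf : Infinite I := by
    rw [infinite_iff, hI]
    exact aleph0_lt_aleph_one.le
  let Tc : Finset ℕ → Set (ℕ × I) := fun c => ⋃ t, (frm r c t : Set (ℕ × I))
  let T : Set (ℕ × I) := ⋃ c ∈ {c | (Tc c).Countable}, Tc c
  have hT : T.Countable := (to_countable _).biUnion fun c hc => hc
  let Λ : Type := (ℵ₁ : Cardinal.{0}).ord.ToType
  have hΛ : #Λ = ℵ₁ := mk_ord_toType _
  obtain ⟨π⟩ : Nonempty (Λ ≃ Finset ℕ × (ℕ × ℕ) × I) := by
    rw [← Cardinal.eq, hΛ]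
    simp [hI, mul_eq_right aleph0_lt_aleph_one.le aleph0_lt_aleph_one.le aleph0_ne_zero]
  obtain ⟨t0⟩ : Nonempty I := inferInstance
  obtain ⟨s, hs⟩ := exists_rec_seq (ι := Λ) (V := Finset ℕ × I × (ℕ × I))
    (fun a W v => v.1 = (π a).1 ∧ (¬ (Tc v.1).Countable → v.2.2 ∈ frm r v.1 v.2.1 ∧ v.2.2 ∉ T ∧
      ∀ w ∈ W, v.2.2 ∉ frm r w.1 w.2.1))
    (fun W => W.Countable)
    (fun i s => by
      have h := mk_Iio_lt i (by simp [Λ])
      rw [hΛ, ← countable_iff_lt] at h
      have := h.to_subtype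
      exact countable_range s)
    (fun a W hW => by
      by_cases h : (Tc (π a).1).Countable
      · exact ⟨((π a).1, t0, (0, t0)), rfl, fun h' => absurd h h'⟩
      · have h1 : (T ∪ ⋃ w ∈ W, (frm r w.1 w.2.1 : Set (ℕ × I))).Countable :=
          hT.union (hW.biUnion fun w _ => Finset.countable_toSet _)
        obtain ⟨x, x1, x2⟩ := not_subset.1 fun h2 : Tc (π a).1 ⊆ _ => h (h1.mono h2)
        obtain ⟨t, ht⟩ := mem_iUnion.1 x1
        exact ⟨((π a).1, t, x), rfl, fun _ => ⟨ht, fun h3 => x2 (Or.inl h3),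
          fun w hw h3 => x2 (Or.inr (mem_iUnion₂.2 ⟨w, hw, h3⟩))⟩⟩)
  let P : ℕ × ℕ → Set Λ := fun k => {a | ¬ (Tc (s a).1).Countable ∧ (π a).2.1 = k}
  have h2 : ∀ a b, ¬ (Tc (s b).1).Countable → a < b → (s b).2.2 ∉ frm r (s a).1 (s a).2.1 :=
    fun a b hb h => ((hs b).2 hb).2.2 _ ⟨a, h, rfl⟩
  have hinj : ∀ a b, ¬ (Tc (s a).1).Countable → ¬ (Tc (s b).1).Countable →
      (s a).2.2 = (s b).2.2 → a = b := fun a b ha hb h => by
    rcases lt_trichotomy a b with c | c | c
    · exact absurd (h ▸ ((hs a).2 ha).1) (h2 a b hb c)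
    · exact c
    · exact absurd (h ▸ ((hs b).2 hb).1) (h2 b a ha c)
  refine ⟨T, fun k => (fun a => (s a).2.2) '' P k, hT, fun a F => ?_, fun k => ?_,
    fun k e he U hU => ?_⟩
  · have h3 : {b : ℕ | ∃ x ∈ F, x ∈ (fun a => (s a).2.2) '' P (a, b)}.Finite := by
      have h4 : ((fun a => (s a).2.2) ⁻¹' (F : Set (ℕ × I)) ∩
          {a | ¬ (Tc (s a).1).Countable}).Finite :=
        Finite.of_finite_image (f := fun a => (s a).2.2) (F.finite_toSet.subset (by
          rintro _ ⟨a, ha, rfl⟩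
          exact ha.1)) fun a ha b hb h => hinj a b ha.2 hb.2 h
      refine (h4.image fun a => (π a).2.1.2).subset ?_
      rintro b ⟨_, hx, c, hc, rfl⟩
      exact ⟨c, ⟨hx, hc.1⟩, congrArg Prod.snd hc.2⟩
    obtain ⟨b, hb⟩ := h3.infinite_compl.nonempty
    exact ⟨b, fun x hx h => hb ⟨x, hx, h⟩⟩
  · rw [disjoint_left]
    rintro _ ⟨a, ha, rfl⟩
    exact ((hs a).2 ha.1).2.1
  · have h3 : ∀ c : Finset ℕ, ∃ β : I → ZMod 2, ∀ u ∈ U,
        β ≠ fun i => u (s (π.symm (c, k, i))).2.1 := by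
      intro c
      by_contra hn
      push Not at hn
      have h4 : (univ : Set (I → ZMod 2)) ⊆
          (fun (u : I → ZMod 2) i => u (s (π.symm (c, k, i))).2.1) '' U := fun β _ =>
        (hn β).imp fun u hu => ⟨hu.1, hu.2.symm⟩
      have h5 := (mk_le_mk_of_subset h4).trans mk_image_le
      rw [mk_univ] at h5
      exact hU.not_ge h5
    choose β hβ using h3
    obtain ⟨y, y1, y2⟩ := solve (fun a => frm r (s a).1 (s a).2.1) (fun a => (s a).2.2) (P k)
      (fun a ha => ((hs a).2 ha.1).1) (fun a _ b hb h => h2 a b hb.1 h) e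
      fun a => β (π a).1 (π a).2.2
    refine ⟨y, y1, fun c => ?_⟩
    by_cases hc : (Tc c).Countable
    · refine Or.inl (funext fun t => ?_)
      rw [Finset.sum_apply, sum_frm]
      refine Finset.sum_eq_zero fun x hx => ?_
      have hxT : x ∈ T := mem_iUnion₂.2 ⟨c, hc, mem_iUnion.2 ⟨t, hx⟩⟩
      rw [y1 x, he x hxT]
      rintro ⟨a, ha, rfl⟩
      exact ((hs a).2 ha.1).2.1 hxT
    · refine Or.inr fun hu => hβ c _ hu (funext fun i => ?_)
      have h4 : (s (π.symm (c, k, i))).1 = c := by rw [(hs _).1, π.apply_symm_apply]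
      have h5 := y2 (π.symm (c, k, i)) ⟨by rwa [h4], by rw [π.apply_symm_apply]⟩
      rw [π.apply_symm_apply, h4] at h5
      rw [Finset.sum_apply, sum_frm, h5]

end req

section sep

variable {J : Type}

/-- Separability from a countable family in the part of the closure that vanishes on `T`. -/
theorem separable_of_split {H : AddSubgroup (J → ZMod 2)} (S : Set H) (h0 : 0 ∈ S)
    (hadd : ∀ x ∈ S, ∀ y ∈ S, x + y ∈ S) (hS : IsClosed S)
    (hreq : ∀ r : J → Finset J, (∀ i, (∀ x ∈ S, x.1 i = 0) → r i = ∅) →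
      ∃ (T : Set J) (d : ℕ × ℕ → H), T.Countable ∧ (∀ n, ∃ y, (d n).1 = ret r y) ∧
        ∀ (F : Finset J) (y : J → ZMod 2), (∀ j ∈ F, j ∈ free r) → (∀ j ∈ T, y j = 0) →
          ∃ n, ∀ j ∈ F, (d n).1 j = y j) :
    SeparableSpace S := by
  classical
  obtain ⟨r, hr, hfix, hsurj⟩ := structure_thm (Subtype.val '' S) ⟨0, h0, rfl⟩ (by
    rintro _ ⟨x, hx, rfl⟩ _ ⟨y, hy, rfl⟩
    exact ⟨x + y, hadd x hx y hy, rfl⟩)
  have hidem : ∀ y, ret r (ret r y) = ret r y := fun y =>
    funext fun i => Finset.sum_congr rfl fun j hj => ret_free y (hr i j hj)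
  have hbi : ∀ F : Finset J, ∀ j ∈ F.biUnion r, j ∈ free r := fun F j hj => by
    obtain ⟨i, -, hi⟩ := Finset.mem_biUnion.1 hj
    exact hr i j hi
  obtain ⟨T, d, hT, hd1, hd2⟩ := hreq r fun i hi => by
    by_contra hne
    obtain ⟨j, hj⟩ := Finset.nonempty_iff_ne_empty.2 hne
    obtain ⟨_, ⟨x, hx, rfl⟩, hxy⟩ := hsurj (r i) (Pi.single j 1) (hr i)
    have h1 := congrFun (hfix _ ⟨x, hx, rfl⟩) i
    rw [hi x hx, ret, Finset.sum_congr rfl hxy, Finset.sum_pi_single', if_pos hj] at h1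
    exact one_ne_zero h1
  have hdfix : ∀ n, ret r (d n).1 = (d n).1 := fun n => by
    obtain ⟨y, hy⟩ := hd1 n
    rw [hy, hidem]
  have hdS : ∀ n, d n ∈ S := fun n => by
    rw [← hS.closure_eq, mem_closure_iff_nhds]
    intro t ht
    obtain ⟨F, hF⟩ := exists_finset_of_mem_nhds_sub ht
    obtain ⟨_, ⟨x, hx, rfl⟩, hxd⟩ := hsurj (F.biUnion r) (d n).1 (hbi F)
    exact ⟨x, hF x (agree_of_free (hfix _ ⟨x, hx, rfl⟩) (hdfix n) hxd), hx⟩
  have : Countable T := hT.to_subtype
  let p : S → (T → ZMod 2) := fun x j => x.1.1 j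
  obtain ⟨D, hD, hdense⟩ := exists_countable_dense (range p)
  choose q hq using fun z : range p => z.2
  have := hD.to_subtype
  refine ⟨⟨range fun n : D × (ℕ × ℕ) =>
    (⟨(q n.1).1 + d n.2, hadd _ (q n.1).2 _ (hdS n.2)⟩ : S), countable_range _, fun x => ?_⟩⟩
  rw [mem_closure_iff_nhds]
  intro t ht
  rw [nhds_subtype, mem_comap] at ht
  obtain ⟨u, hu, hsub⟩ := ht
  obtain ⟨F, hF⟩ := exists_finset_of_mem_nhds_sub hu
  obtain ⟨z, z1, z2⟩ := mem_closure_iff_nhds.1 (hdense ⟨p x, x, rfl⟩) _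
    (continuous_subtype_val.continuousAt.preimage_mem_nhds
      (agree_mem_nhds (p x) ((F.biUnion r).subtype (· ∈ T))))
  obtain ⟨n, hn⟩ := hd2 (F.biUnion r) (fun j => if j ∈ T then 0 else x.1.1 j - (q z).1.1 j)
    (hbi F) fun j hj => if_pos hj
  refine ⟨_, hsub (hF _ (agree_of_free (hfix _ ⟨_, hadd _ (q z).2 _ (hdS n), rfl⟩)
    (hfix _ ⟨x.1, x.2, rfl⟩) fun j hj => ?_)), (⟨z, z2⟩, n), rfl⟩
  change (q z).1.1 j + (d n).1 j = x.1.1 j
  rw [hn j hj]
  split_ifs with h
  · rw [add_zero]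
    exact (congrFun (hq z) ⟨j, h⟩).trans (z1 ⟨j, h⟩ (Finset.mem_subtype.2 hj))
  · rw [add_sub_cancel]

end sep

section main

variable {I : Type}

/-- Placing a point of the cube on a block of coordinates. -/
noncomputable def plc (ψ : I → I) : (I → ZMod 2) →+ (I → ZMod 2) where
  toFun x := Function.extend ψ x 0
  map_zero' := by
    classical
    funext i
    rw [Function.extend_def]
    split_ifs <;> rfl
  map_add' x y := by
    classical
    funext i
    rw [Pi.add_apply, Function.extend_def, Function.extend_def, Function.extend_def]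
    split_ifs
    · rfl
    · exact (add_zero _).symm

theorem plc_apply {ψ : I → I} (hψ : Injective ψ) (x : I → ZMod 2) (t : I) :
    plc ψ x (ψ t) = x t := hψ.extend_apply _ _ _

theorem plc_off {ψ : I → I} (x : I → ZMod 2) {i : I} (h : ¬ ∃ t, ψ t = i) : plc ψ x i = 0 :=
  Function.extend_apply' _ _ _ h

theorem continuous_plc (ψ : I → I) : Continuous (plc ψ) := by
  refine continuous_pi fun i => ?_
  by_cases h : ∃ t, ψ t = i
  · have : (fun x : I → ZMod 2 => plc ψ x i) = fun x => x h.choose :=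
      funext fun x => by
        classical
        exact (Function.extend_def ψ x 0 i).trans (dif_pos h)
    rw [this]
    exact continuous_apply _
  · simp only [plc_off _ h]
    exact continuous_const

theorem plc_base [DecidableEq I] {ψ : I → I} (hψ : Injective ψ) {x : I → ZMod 2}
    (hx : x ∈ AddSubgroup.closure (base I)) : plc ψ x ∈ AddSubgroup.closure (base I) := by
  refine (AddSubgroup.closure_le ((AddSubgroup.closure (base I)).comap (plc ψ))).2 ?_ hx
  rintro _ (rfl | ⟨t, rfl⟩)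
  · exact zero_mem _
  · refine AddSubgroup.subset_closure (Or.inr ⟨ψ t, funext fun i => ?_⟩)
    by_cases h : ∃ t', ψ t' = i
    · obtain ⟨t', rfl⟩ := h
      rw [plc_apply hψ]
      simp only [Pi.single_apply, hψ.eq_iff]
    · rw [plc_off _ h]
      exact Pi.single_eq_of_ne (fun e => h ⟨t, e.symm⟩) _

theorem mem_of_finite [DecidableEq I] {x : I → ZMod 2} (hx : {i | x i ≠ 0}.Finite) :
    x ∈ AddSubgroup.closure (base I) := by
  have h : x = ∑ t ∈ hx.toFinset, Pi.single t 1 := by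
    funext i
    rw [Finset.sum_apply]
    simp only [Pi.single_apply, Finset.sum_ite_eq, Finite.mem_toFinset, mem_ofPred_eq]
    rcases z2_cases (x i) with h | h <;> simp [h]
  rw [h]
  exact sum_mem fun t _ => AddSubgroup.subset_closure (Or.inr ⟨t, rfl⟩)

theorem sigma_base [DecidableEq I] :
    IsSigmaCompact (AddSubgroup.closure (base I) : Set (I → ZMod 2)) := by
  have : CompactSpace (base I) := isCompact_iff_compactSpace.1 isCompact_base
  refine ⟨fun n => range fun v : Fin n → base I => ∑ k, (v k).1, fun n => isCompact_range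
    (continuous_finsetSum _ fun k _ => continuous_subtype_val.comp (continuous_apply k)), ?_⟩
  ext x
  constructor
  · intro hx
    obtain ⟨n, v, rfl⟩ := mem_iUnion.1 hx
    exact sum_mem fun k _ => AddSubgroup.subset_closure (v k).2
  · intro hx
    obtain ⟨l, hl⟩ := exists_list_sum cube_add_self _ hx
    refine mem_iUnion.2 ⟨l.length, l.get, ?_⟩
    rw [← hl]
    change ∑ k : Fin l.length, (l.get k).1 = _
    rw [← List.sum_ofFn]
    congr 1
    rw [← List.ofFn_get l, List.map_ofFn]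
    simp [Function.comp_def]

/-- The group, inside the cube. -/
theorem exists_group [DecidableEq I] (hI : #I = ℵ₁) {B : Type} (hB2 : 2 ≤ #B)
    (ψ : B → I → I) (hψ : ∀ i i' t t', ψ i t = ψ i' t' → i = i' ∧ t = t') :
    ∃ G : AddSubgroup (I → ZMod 2), base I ⊆ G ∧
      (∀ x, (∀ i, plc (ψ i) x ∈ G) → x ∈ AddSubgroup.closure (base I)) ∧
      (∀ f : G → ℝ, Continuous f → ∃ C : ℝ, ∀ x, |f x| ≤ C) ∧
      ∀ A : Type, #A < #B → ∀ S : AddSubgroup (A → G), IsClosed (S : Set (A → G)) →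
        SeparableSpace S := by
  classical
  have hunc : ¬ (Set.univ : Set I).Countable := by
    rw [countable_iff_lt, mk_univ, hI]
    exact lt_irrefl _
  have hinf : Infinite I := by
    rw [infinite_iff, hI]
    exact aleph0_lt_aleph_one.le
  have hJ : #(ℕ × I) = ℵ₁ := by
    simp [hI, mul_eq_right aleph0_lt_aleph_one.le aleph0_lt_aleph_one.le aleph0_ne_zero]
  have hμ : #(I → ZMod 2) = 2 ^ ℵ₁ := by simp [hI]
  have hlt : ℵ₁ < #(I → ZMod 2) := by
    rw [hμ]
    exact cantor _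
  have hω : ℵ₀ < #(I → ZMod 2) := aleph0_lt_aleph_one.trans hlt
  obtain ⟨i₀⟩ : Nonempty I := inferInstance
  have hB1 : #B ≤ ℵ₁ := hI ▸ mk_le_of_injective (f := fun i => ψ i i₀) fun i i' h => (hψ _ _ _ _ h).1
  have hB0 : Nonempty B := mk_ne_zero_iff.1 (two_pos.trans_le hB2).ne'
  have hψi : ∀ i, Injective (ψ i) := fun i t t' h => (hψ _ _ _ _ h).2
  obtain ⟨e, he⟩ := exists_dense_seq_cube (I := ℕ × I) (hJ ▸ aleph_one_le_continuum)
  have hcompl : ∀ C : ℕ → I, ¬ ((range C)ᶜ).Countable := fun C h =>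
    hunc (by rw [← union_compl_self (range C)]; exact (countable_range C).union h)
  choose χ hχ hχB using fun C : ℕ → I => exists_inj_into hI (hcompl C)
  choose T Blk hT hBF hBT hBU using blocks hI
  let κ : Type := ((ℕ × I → Finset (ℕ × I)) × (ℕ × ℕ)) ⊕ ((ℕ → I) × (I → ZMod 2))
  let R : κ → Set (ℕ → I → ZMod 2) := fun k => match k with
    | Sum.inl (r, n) => {z | #{l | ∃ t, r (l, t) ≠ ∅} < #B → ∃ y : ℕ × I → ZMod 2,
        (∀ x, x ∉ Blk r n → y x = if x ∈ T r then 0 else e n.1 x) ∧ (∀ x ∈ T r, y x = 0) ∧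
          z = fun l t => ret r y (l, t)}
    | Sum.inr (C, a) => {z | ∀ i ∈ range C, z 0 i = a i}
  have hκ : #κ ≤ #(I → ZMod 2) := by
    have h1 : #(ℕ × I → Finset (ℕ × I)) = #(I → ZMod 2) := by
      rw [hμ, ← power_self_eq aleph0_lt_aleph_one.le]
      simp only [mk_pi, prod_const, lift_id, mk_finset_of_infinite, hJ]
    have h2 : #(ℕ → I) ≤ #(I → ZMod 2) := by
      rw [hμ, ← power_self_eq aleph0_lt_aleph_one.le]
      simp only [mk_pi, prod_const, lift_id, mk_nat, hI]
      exact power_le_power_left (aleph_pos 1).ne' aleph0_lt_aleph_one.le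
    have h3 : #(ℕ × ℕ) ≤ #(I → ZMod 2) := mk_le_aleph0.trans hω.le
    simp only [κ, mk_sum, lift_id]
    refine add_le_of_le hω.le ?_ ?_
    · rw [mk_prod, lift_id, lift_id]
      exact mul_le_of_le hω.le h1.le h3
    · rw [mk_prod, lift_id, lift_id]
      exact mul_le_of_le hω.le h2 le_rfl
  have hE : #(base I) < #(I → ZMod 2) := by
    refine lt_of_le_of_lt mk_insert_le (add_lt_of_lt hω.le ?_ (one_lt_aleph0.trans hω))
    exact lt_of_le_of_lt mk_range_le (hI ▸ hlt)
  have : Nonempty κ := ⟨Sum.inl (fun _ => ∅, 0, 0)⟩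
  obtain ⟨G, hG, hRG, hGE⟩ := exists_subgroup (fun i => plc (ψ i)) (fun F ⟨i, hi⟩ x x' h => by
      funext t
      have key : ∀ x : I → ZMod 2, (∑ k ∈ F, plc (ψ k) x) (ψ i t) = x t := fun x => by
        rw [Finset.sum_apply, Finset.sum_eq_single_of_mem i hi, plc_apply (hψi i)]
        exact fun k _ hk => plc_off _ fun ⟨t', ht'⟩ => hk (hψ _ _ _ _ ht').1
      rw [← key x, ← key x']
      exact congrFun h _) hω (hB1.trans_lt hlt) κ hκ _ hE R (by
    rintro (⟨r, n⟩ | ⟨C, a⟩) U hU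
    · by_cases h : #{l | ∃ t, r (l, t) ≠ ∅} < #B
      · obtain ⟨y, y1, y2⟩ := hBU r n (fun x => if x ∈ T r then 0 else e n.1 x)
          (fun x hx => if_pos hx) U hU
        refine ⟨fun l t => ret r y (l, t), fun _ => ⟨y, y1, fun x hx => ?_, rfl⟩, ?_, y2⟩
        · rw [y1 x (disjoint_right.1 (hBT r n) hx), if_pos hx]
        · refine (mk_le_mk_of_subset fun l hl => ?_).trans_lt h
          by_contra hn
          refine hl (funext fun t => ?_)
          have h1 : r (l, t) = ∅ := not_not.1 fun h' => hn ⟨t, h'⟩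
          simp [ret, h1]
      · exact ⟨0, fun h' => absurd h' h, by simpa using two_pos.trans_le hB2,
          fun c => Or.inl (by simp)⟩
    · obtain ⟨_, ⟨β, rfl⟩, hx⟩ := not_subset.1 fun h2 : (range fun β : I → ZMod 2 =>
          id (a + Function.extend (fun i => χ C ((0, 0), i)) β 0)) ⊆ U => hU.not_ge
        ((mk_perturb id _ (fun i j hij => (Prod.ext_iff.1 (hχ C hij)).2) (fun _ _ => rfl) a).trans
          (mk_le_mk_of_subset h2))
      refine ⟨Pi.single 0 (a + Function.extend (fun i => χ C ((0, 0), i)) β 0), fun i hi => ?_,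
        ?_, fun c => ?_⟩
      · have h1 : ¬ ∃ j, χ C ((0, 0), j) = i := by
          rintro ⟨j, rfl⟩
          exact hχB C ((0, 0), j) hi
        rw [Pi.single_eq_same, Pi.add_apply, Function.extend_apply' _ _ _ h1]
        simp
      · refine lt_of_le_of_lt (mk_le_mk_of_subset (t := {0}) fun l hl => ?_) ?_
        · by_contra h
          exact hl (Pi.single_eq_of_ne h _)
        · rw [mk_singleton]
          exact Cardinal.one_lt_two.trans_le hB2
      · rw [Finset.sum_pi_single']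
        split_ifs
        · exact Or.inr hx
        · exact Or.inl rfl)
  refine ⟨G, hG, fun x hx => ?_, bounded_of_fill fun C hC a => ?_, fun A hA S hS => ?_⟩
  · obtain ⟨i, hi⟩ := hGE x hx
    refine mem_of_finite (((finite_supp hi).preimage (hψi i).injOn).subset fun t ht => ?_)
    change plc (ψ i) x (ψ i t) ≠ 0
    rwa [plc_apply (hψi i)]
  · obtain ⟨c, hc⟩ := (hC.insert i₀).exists_eq_range (insert_nonempty _ _)
    obtain ⟨z, z1, z2⟩ := hRG (Sum.inr (c, a))
    exact ⟨⟨_, z2 0⟩, fun i hi => z1 i (hc ▸ Or.inr hi)⟩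
  · have hAc : Countable A := by
      rw [← mk_le_aleph0_iff, ← lt_aleph_one_iff]
      exact hA.trans_le hB1
    obtain ⟨f, hf⟩ := exists_injective_nat A
    let H : AddSubgroup (ℕ × I → ZMod 2) :=
      { carrier := {x | ∀ l, (fun t => x (l, t)) ∈ G}
        add_mem' := fun hx hy l => G.add_mem (hx l) (hy l)
        zero_mem' := fun _ => G.zero_mem
        neg_mem' := fun hx l => G.neg_mem (hx l) }
    let ρ : H → A → G := fun x a => ⟨fun t => x.1 (f a, t), x.2 (f a)⟩
    have hρ : Continuous ρ := continuous_pi fun a => continuous_induced_rng.2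
      (continuous_pi fun t => (continuous_apply (f a, t)).comp continuous_subtype_val)
    have hsep := separable_of_split (H := H)
      {x | ρ x ∈ S ∧ ∀ l, l ∉ range f → ∀ t, x.1 (l, t) = 0} ⟨S.zero_mem, fun _ _ _ => rfl⟩
      (fun x hx y hy => ⟨S.add_mem hx.1 hy.1, fun l hl t => by
        change x.1 (l, t) + y.1 (l, t) = 0
        rw [hx.2 l hl t, hy.2 l hl t, add_zero]⟩)
      ((hS.preimage hρ).inter (by
        change IsClosed {x : H | ∀ l, l ∉ range f → ∀ t, x.1 (l, t) = 0}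
        simp only [ofPred_forall]
        exact isClosed_iInter fun l => isClosed_iInter fun _ => isClosed_iInter fun t =>
          isClosed_eq ((continuous_apply _).comp continuous_subtype_val) continuous_const))
      fun r hr => by
        have h1 : #{l | ∃ t, r (l, t) ≠ ∅} < #B := by
          refine ((mk_le_mk_of_subset (t := range f) ?_).trans mk_range_le).trans_lt hA
          rintro l ⟨t, ht⟩
          by_contra hl
          exact ht (hr _ fun x hx => hx.2 l hl t)
        have h2 : ∀ n : ℕ × ℕ, ∃ y : ℕ × I → ZMod 2,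
            (∀ x, x ∉ Blk r n → y x = if x ∈ T r then 0 else e n.1 x) ∧ (∀ x ∈ T r, y x = 0) ∧
              ret r y ∈ H := fun n => by
          obtain ⟨z, z1, z2⟩ := hRG (Sum.inl (r, n))
          obtain ⟨y, y1, y2, rfl⟩ := z1 h1
          exact ⟨y, y1, y2, z2⟩
        choose y y1 y2 y3 using h2
        refine ⟨T r, fun n => ⟨_, y3 n⟩, hT r, fun n => ⟨_, rfl⟩, fun F w hF hw => ?_⟩
        obtain ⟨a, ha⟩ := he F w
        obtain ⟨b, hb⟩ := hBF r a F
        refine ⟨(a, b), fun j hj => ?_⟩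
        change ret r (y (a, b)) j = w j
        rw [ret_free _ (hF j hj), y1 _ j (hb j hj)]
        split_ifs with h
        · exact (hw j h).symm
        · exact ha j hj
    refine DenseRange.separableSpace (f := fun x : {x : H | ρ x ∈ S ∧
      ∀ l, l ∉ range f → ∀ t, x.1 (l, t) = 0} => (⟨ρ x.1, x.2.1⟩ : S))
      (Surjective.denseRange fun p => ?_) ((hρ.comp continuous_subtype_val).subtype_mk _)
    have h3 : ∀ l, Function.extend f (fun a => (p.1 a).1) 0 l ∈ G := fun l => by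
      by_cases h : ∃ a, f a = l
      · obtain ⟨a, rfl⟩ := h
        rw [hf.extend_apply]
        exact (p.1 a).2
      · rw [Function.extend_apply' _ _ _ h]
        exact G.zero_mem
    have h4 : ρ ⟨fun x => Function.extend f (fun a => (p.1 a).1) 0 x.1 x.2, h3⟩ = p.1 :=
      funext fun a => Subtype.ext (funext fun t =>
        congrFun (hf.extend_apply (fun a => (p.1 a).1) 0 a) t)
    exact ⟨⟨⟨fun x => Function.extend f (fun a => (p.1 a).1) 0 x.1 x.2, h3⟩,
      (congrArg (· ∈ S) h4).mpr p.2, fun l hl t =>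
        congrFun (Function.extend_apply' (fun a => (p.1 a).1) (0 : ℕ → I → ZMod 2) l hl) t⟩,
      Subtype.ext h4⟩

/-- The closed sigma-compact non-separable subgroup of a large power. -/
theorem bad_power [DecidableEq I] (hI : #I = ℵ₁) {B : Type} [Nonempty B] (ψ : B → I → I)
    (hψ : ∀ i, Injective (ψ i)) {G : AddSubgroup (I → ZMod 2)} (hG : base I ⊆ G)
    (hGE : ∀ x, (∀ i, plc (ψ i) x ∈ G) → x ∈ AddSubgroup.closure (base I)) {C : Type}
    (g : B → C) (hg : Injective g) :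
    ∃ S : AddSubgroup (C → G), IsClosed (S : Set (C → G)) ∧ IsSigmaCompact (S : Set (C → G)) ∧
      ¬ SeparableSpace S := by
  classical
  obtain ⟨i0⟩ := ‹Nonempty B›
  have hE : AddSubgroup.closure (base I) ≤ G := (AddSubgroup.closure_le G).2 hG
  let rec0 : (C → G) →+ (I → ZMod 2) :=
    { toFun := fun p t => (p (g i0)).1 (ψ i0 t)
      map_zero' := rfl
      map_add' := fun _ _ => rfl }
  have hc0 : Continuous rec0 := continuous_pi fun t => (continuous_apply (ψ i0 t)).comp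
    (continuous_subtype_val.comp (continuous_apply (g i0)))
  let S : AddSubgroup (C → G) :=
    { carrier := {p | (∀ i, (p (g i)).1 = plc (ψ i) (rec0 p)) ∧ ∀ c, c ∉ range g → p c = 0}
      add_mem' := fun {p q} hp hq => ⟨fun i => by
        rw [map_add, map_add, ← hp.1 i, ← hq.1 i]
        rfl, fun c hc => by rw [Pi.add_apply, hp.2 c hc, hq.2 c hc, add_zero]⟩
      zero_mem' := ⟨fun i => by rw [map_zero, map_zero]; rfl, fun _ _ => rfl⟩
      neg_mem' := fun {p} hp => ⟨fun i => by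
        rw [map_neg, map_neg, ← hp.1 i]
        rfl, fun c hc => by rw [Pi.neg_apply, hp.2 c hc, neg_zero]⟩ }
  let Φ : AddSubgroup.closure (base I) → C → G := fun x =>
    Function.extend g (fun i => ⟨plc (ψ i) x.1, hE (plc_base (hψ i) x.2)⟩) 0
  have hΦ1 : ∀ x i, (Φ x (g i)).1 = plc (ψ i) x.1 := fun x i =>
    congrArg Subtype.val (hg.extend_apply _ _ i)
  have hΦ2 : ∀ x c, c ∉ range g → Φ x c = 0 := fun x c hc => Function.extend_apply' _ _ _ hc
  have hΦ3 : ∀ x, rec0 (Φ x) = x.1 := fun x => funext fun t => by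
    change (Φ x (g i0)).1 (ψ i0 t) = _
    rw [hΦ1, plc_apply (hψ i0)]
  have hΦS : ∀ x, Φ x ∈ S := fun x => ⟨fun i => by rw [hΦ1, hΦ3], hΦ2 x⟩
  have hSE : ∀ p ∈ S, rec0 p ∈ AddSubgroup.closure (base I) := fun p hp =>
    hGE _ fun i => hp.1 i ▸ (p (g i)).2
  have hΦc : Continuous Φ := continuous_pi fun c => by
    by_cases h : c ∈ range g
    · obtain ⟨i, rfl⟩ := h
      refine continuous_induced_rng.2 ?_
      change Continuous fun x => (Φ x (g i)).1
      simp only [hΦ1]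
      exact (continuous_plc _).comp continuous_subtype_val
    · simp only [hΦ2 _ c h]
      exact continuous_const
  refine ⟨S, ?_, ?_, ?_⟩
  · change IsClosed ({p : C → G | ∀ i, (p (g i)).1 = plc (ψ i) (rec0 p)} ∩
      {p | ∀ c, c ∉ range g → p c = 0})
    simp only [ofPred_forall]
    exact (isClosed_iInter fun i => isClosed_eq (continuous_subtype_val.comp (continuous_apply _))
      ((continuous_plc _).comp hc0)).inter (isClosed_iInter fun c => isClosed_iInter fun _ =>
        isClosed_eq (continuous_apply _) continuous_const)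
  · have : SigmaCompactSpace (AddSubgroup.closure (base I)) :=
      isSigmaCompact_iff_sigmaCompactSpace.1 sigma_base
    have h : (S : Set (C → G)) = range Φ := by
      ext p
      refine ⟨fun hp => ⟨⟨_, hSE p hp⟩, funext fun c => ?_⟩, ?_⟩
      · by_cases h : c ∈ range g
        · obtain ⟨i, rfl⟩ := h
          exact Subtype.ext ((hΦ1 _ i).trans (hp.1 i).symm)
        · rw [hΦ2 _ c h, hp.2 c h]
      · rintro ⟨x, rfl⟩
        exact hΦS x
    rw [h]
    exact isSigmaCompact_range hΦc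
  · rintro ⟨D, hD, hdense⟩
    have h1 : (⋃ p ∈ D, {i | rec0 p.1 i ≠ 0}).Countable :=
      hD.biUnion fun p _ => (finite_supp (hSE p.1 p.2)).countable
    obtain ⟨i, hi⟩ : ∃ i, i ∉ ⋃ p ∈ D, {i | rec0 p.1 i ≠ 0} := by
      by_contra hcon
      push Not at hcon
      rw [eq_univ_of_forall hcon, countable_iff_lt, mk_univ, hI] at h1
      exact lt_irrefl _ h1
    have hO : IsOpen {p : S | rec0 p.1 i = 1} := (isOpen_discrete {(1 : ZMod 2)}).preimage
      ((continuous_apply i).comp (hc0.comp continuous_subtype_val))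
    obtain ⟨p, hp1, hp2⟩ := hdense.inter_open_nonempty _ hO
      ⟨⟨_, hΦS ⟨Pi.single i 1, AddSubgroup.subset_closure (Or.inr ⟨i, rfl⟩)⟩⟩, by
        change rec0 (Φ _) i = 1
        rw [hΦ3]
        exact Pi.single_eq_same _ _⟩
    refine hi (mem_iUnion₂.2 ⟨p, hp2, ?_⟩)
    change rec0 p.1 i ≠ 0
    rw [show rec0 p.1 i = 1 from hp1]
    exact one_ne_zero

end main

end Pool.Agent.MP_36bcbe_gt.Pw
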